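import Pool.Agent.W600.DM.Val

set_option autoImplicit false
set_option linter.unusedSectionVars false

open Filter Topology

namespace Pool.Agent.W600.DM

section alg

variable {K ι : Type} [Field K]

lemma Alg_shift (d : ℕ) (u : ι → K) : ∀ f ∈ Alg d u, (fun n => f (n + 1)) ∈ Alg d u := by
  intro f hf
  unfold Alg at hf
  induction hf using Algebra.adjoin_induction with
  | mem f hf =>
    obtain ⟨i, rfl | rfl⟩ := hf
    · have h : (fun n => u i ^ (d ^ (n + 1))) = (fun n => u i ^ (d ^ n)) ^ d := by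
        funext n; simp [pow_succ, pow_mul]
      rw [h]
      exact (Alg d u).pow_mem (Algebra.subset_adjoin ⟨i, Or.inl rfl⟩) d
    · have h : (fun n => (u i)⁻¹ ^ (d ^ (n + 1))) = (fun n => (u i)⁻¹ ^ (d ^ n)) ^ d := by
        funext n; simp [pow_succ, pow_mul]
      rw [h]
      exact (Alg d u).pow_mem (Algebra.subset_adjoin ⟨i, Or.inr rfl⟩) d
  | algebraMap r => exact (Alg d u).algebraMap_mem r
  | add f g _ _ hf hg => exact (Alg d u).add_mem hf hg
  | mul f g _ _ hf hg => exact (Alg d u).mul_mem hf hg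

lemma prod_mem_Alg [Fintype ι] (d : ℕ) (u : ι → K) (δ : ι → ℕ) :
    (fun n => (∏ j, u j ^ δ j) ^ (d ^ n)) ∈ Alg d u := by
  have h : (fun n => (∏ j, u j ^ δ j) ^ (d ^ n)) = ∏ j, (fun n => u j ^ (d ^ n)) ^ δ j := by
    funext n
    rw [Finset.prod_apply, ← Finset.prod_pow]
    refine Finset.prod_congr rfl fun j _ => ?_
    rw [Pi.pow_apply, ← pow_mul, ← pow_mul, mul_comm]
  rw [h]
  exact prod_mem fun j _ => (Alg d u).pow_mem (Algebra.subset_adjoin ⟨j, Or.inl rfl⟩) _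

lemma div_mem_Alg [Fintype ι] (d : ℕ) (u : ι → K) (δ : ι → ℕ) (i : ι) :
    (fun n => ((∏ j, u j ^ δ j) / u i ^ d) ^ (d ^ n)) ∈ Alg d u := by
  have h : (fun n => ((∏ j, u j ^ δ j) / u i ^ d) ^ (d ^ n)) =
      (fun n => (∏ j, u j ^ δ j) ^ (d ^ n)) * (fun n => (u i)⁻¹ ^ (d ^ n)) ^ d := by
    funext n
    rw [Pi.mul_apply, Pi.pow_apply, div_eq_mul_inv, mul_pow, ← inv_pow, ← pow_mul, ← pow_mul,
      mul_comm d]
  rw [h]
  exact (Alg d u).mul_mem (prod_mem_Alg d u δ)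
    ((Alg d u).pow_mem (Algebra.subset_adjoin ⟨i, Or.inr rfl⟩) _)

end alg

lemma superexp {q t c B : ℝ} (hq0 : 0 ≤ q) (hq1 : q < 1) (ht : 0 < t) (hc : 0 < c) :
    ∀ᶠ j : ℕ in atTop, B * q ^ (2 ^ j) < c * t ^ j := by
  obtain ⟨m, hm⟩ := exists_pow_lt_of_lt_one ht hq1
  have h1 := tendsto_pow_const_div_const_pow_of_one_lt 1 (show (1 : ℝ) < 2 by norm_num)
  have h2 : ∀ᶠ j : ℕ in atTop, ((j : ℝ) ^ 1 / 2 ^ j) < 1 / ((m : ℝ) + 1) :=
    h1.eventually (gt_mem_nhds (by positivity))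
  have h3 : Tendsto (fun j : ℕ => max B 0 * q ^ j) atTop (𝓝 0) := by
    simpa using (tendsto_pow_atTop_nhds_zero_of_lt_one hq0 hq1).const_mul (max B 0)
  filter_upwards [h2, h3.eventually (gt_mem_nhds hc)] with j hj hj2
  have h4 : (m + 1) * j ≤ 2 ^ j := by
    rw [pow_one, div_lt_div_iff₀ (by positivity) (by positivity), one_mul] at hj
    have : (((m + 1) * j : ℕ) : ℝ) < ((2 ^ j : ℕ) : ℝ) := by
      push_cast
      linarith
    exact_mod_cast this.le
  have h5 : q ^ (2 ^ j) ≤ q ^ j * t ^ j := by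
    calc q ^ (2 ^ j) ≤ q ^ ((m + 1) * j) := pow_le_pow_of_le_one hq0 hq1.le h4
      _ = (q ^ (m + 1)) ^ j := by rw [pow_mul]
      _ = (q * q ^ m) ^ j := by rw [pow_succ']
      _ ≤ (q * t) ^ j := by
        refine pow_le_pow_left₀ (by positivity) (mul_le_mul_of_nonneg_left hm.le hq0) _
      _ = q ^ j * t ^ j := by rw [mul_pow]
  calc B * q ^ (2 ^ j) ≤ max B 0 * q ^ (2 ^ j) :=
        mul_le_mul_of_nonneg_right (le_max_left _ _) (by positivity)
    _ ≤ max B 0 * (q ^ j * t ^ j) := mul_le_mul_of_nonneg_left h5 (le_max_right _ _)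
    _ = (max B 0 * q ^ j) * t ^ j := by ring
    _ < c * t ^ j := mul_lt_mul_of_pos_right hj2 (pow_pos ht j)

/-- from behaviour on residue classes to eventual periodicity. -/
lemma evPer_of_classes {M n₀ : ℕ} (hM : 1 ≤ M) {A : Set ℕ}
    (h : ∀ r ≥ n₀, (∀ᶠ j : ℕ in atTop, r + M * j ∈ A) ∨ (∀ᶠ j : ℕ in atTop, r + M * j ∉ A)) :
    EvPer M A := by
  classical
  have h' : ∀ r : ℕ, ∃ J : ℕ, n₀ ≤ r → ∀ j ≥ J, r + M * j ∈ A ↔ r + M * (j + 1) ∈ A := by
    intro r
    by_cases hr : n₀ ≤ r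
    · rcases h r hr with h1 | h1
      · obtain ⟨J, hJ⟩ := eventually_atTop.mp h1
        exact ⟨J, fun _ j hj => iff_of_true (hJ j hj) (hJ (j + 1) (by omega))⟩
      · obtain ⟨J, hJ⟩ := eventually_atTop.mp h1
        exact ⟨J, fun _ j hj => iff_of_false (hJ j hj) (hJ (j + 1) (by omega))⟩
    · exact ⟨0, fun h => absurd h hr⟩
  choose J hJ using h'
  set J0 := ∑ r ∈ Finset.range (n₀ + M), J r with hJ0
  refine ⟨n₀ + M * J0, fun n hn => ?_⟩
  -- n = r + M * j
  set j := (n - n₀) / M with hj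
  set r := n₀ + (n - n₀) % M with hr
  have hlt : (n - n₀) % M < M := Nat.mod_lt _ (by omega)
  have hn2 : n = r + M * j := by
    have h1 : (n - n₀) % M + M * j = n - n₀ := Nat.mod_add_div (n - n₀) M
    omega
  have hjge : J0 ≤ j := by
    rw [hj, Nat.le_div_iff_mul_le (by omega)]
    have : J0 * M = M * J0 := mul_comm _ _
    omega
  have hJr : J r ≤ J0 := by
    rw [hJ0]
    exact Finset.single_le_sum (f := J) (fun _ _ => Nat.zero_le _)
      (Finset.mem_range.mpr (by omega))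
  have := hJ r (by omega) j (hJr.trans hjge)
  have h3 : n + M = r + M * (j + 1) := by rw [mul_add, mul_one]; omega
  rw [h3, hn2]
  exact this

end Pool.Agent.W600.DM
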