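import Pool.Agent.W600.DM.Orb

set_option autoImplicit false
set_option linter.unusedSectionVars false

open Filter Topology

namespace Pool.Agent.W600.DM

variable {K : Type} [NontriviallyNormedField K] [IsUltrametricDist K]
variable {ι : Type} [Fintype ι] {d : ℕ} {T : ι → Finset (ι → ℕ)} {c : ι → (ι → ℕ) → K}
  {x : ℕ → ι → K}

lemma norm_d_lt {p : ℕ} (hpn : ‖(p : K)‖ < 1) (hpd : p ∣ d) : ‖(d : K)‖ < 1 := by
  obtain ⟨m, rfl⟩ := hpd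
  rw [Nat.cast_mul, norm_mul]
  have h1 : ‖(m : K)‖ ≤ 1 := IsUltrametricDist.norm_natCast_le_one K m
  calc ‖(p : K)‖ * ‖(m : K)‖ ≤ ‖(p : K)‖ * 1 := mul_le_mul_of_nonneg_left h1 (norm_nonneg _)
    _ < 1 := by rwa [mul_one]

/-- Boettcher coordinates of the whole orbit. -/
lemma boettcher (hY : S_Y) [CompleteSpace K] [CharZero K] [IsAlgClosed K] (hd : 2 ≤ d)
    (hδ : ‖(d : K)‖ < 1)
    (hx : ∀ n i, x (n + 1) i = x n i ^ d + ∑ β ∈ T i, c i β * ∏ j, x n j ^ (β j))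
    (hx0 : ∀ i, x 0 i ≠ 0)
    (hdom : ∀ i, ∀ β ∈ T i, ‖c i β‖ * ∏ j, ‖x 0 j‖ ^ (β j) < ‖x 0 i‖ ^ d ∧
        ∏ j, ‖x 0 j‖ ^ (β j) < ‖x 0 i‖ ^ d) :
    ∃ (b : ι → K) (C κ : ℝ), (∀ i, b i ≠ 0) ∧ 0 ≤ κ ∧ κ < 1 ∧
      ∀ n i, ‖x n i / b i ^ (d ^ n) - 1‖ ≤ C * κ ^ (d ^ n) := by
  have hnorm := orbit_norm hd hx hx0 hdom
  have hne : ∀ n i, x n i ≠ 0 := by
    intro n i
    rw [← norm_pos_iff, hnorm]
    have := norm_pos_iff.mpr (hx0 i)
    positivity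
  -- per coordinate
  have key : ∀ i, ∃ (b : K) (C κ' : ℝ), b ≠ 0 ∧ 0 ≤ κ' ∧ κ' < 1 ∧
      ∀ n, ‖x n i / b ^ (d ^ n) - 1‖ ≤ C * κ' ^ (d ^ n) := by
    intro i
    have hpos : 0 < ‖x 0 i‖ ^ d := pow_pos (norm_pos_iff.mpr (hx0 i)) d
    obtain ⟨κ1, h10, h11, hκ1⟩ := exists_lt_one (T i)
      (fun β => ‖c i β‖ * (∏ j, ‖x 0 j‖ ^ (β j)) / ‖x 0 i‖ ^ d)
      (fun β hβ => by rw [div_lt_one hpos]; exact (hdom i β hβ).1)
    obtain ⟨κ2, h20, h21, hκ2⟩ := exists_lt_one (T i)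
      (fun β => (∏ j, ‖x 0 j‖ ^ (β j)) / ‖x 0 i‖ ^ d)
      (fun β hβ => by rw [div_lt_one hpos]; exact (hdom i β hβ).2)
    refine hY K d hd hδ (fun n => x n i)
      (fun n => (∑ β ∈ T i, c i β * ∏ j, x n j ^ (β j)) / x n i ^ d) (max κ1 κ2)
      (le_max_of_le_left h10) (max_lt h11 h21) (hx0 i) ?_ ?_
    · intro n
      have := hne n i
      simp only [hx n i]
      field_simp
    · intro n
      rw [norm_div, norm_pow, hnorm n i, ← pow_mul, mul_comm (d ^ n) d, pow_mul,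
        div_le_iff₀ (pow_pos hpos _)]
      refine IsUltrametricDist.norm_sum_le_of_forall_le_of_nonneg
        (mul_nonneg (pow_nonneg (le_max_of_le_left h10) _) (pow_pos hpos _).le) ?_
      intro β hβ
      rw [norm_mul, norm_prod_orbit (hnorm n)]
      set a := ∏ j, ‖x 0 j‖ ^ (β j) with ha
      have ha0 : 0 ≤ a := Finset.prod_nonneg fun j _ => by positivity
      have hk1 : ‖c i β‖ * a ≤ max κ1 κ2 * ‖x 0 i‖ ^ d := by
        have := hκ1 β hβ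
        rw [div_le_iff₀ hpos] at this
        exact this.trans (mul_le_mul_of_nonneg_right (le_max_left _ _) hpos.le)
      have hk2 : a ≤ max κ1 κ2 * ‖x 0 i‖ ^ d := by
        have := hκ2 β hβ
        rw [div_le_iff₀ hpos] at this
        exact this.trans (mul_le_mul_of_nonneg_right (le_max_right _ _) hpos.le)
      obtain ⟨k, hk⟩ := Nat.exists_eq_add_of_le' (Nat.one_le_pow n d (by omega))
      rw [hk, ← mul_pow, pow_succ' a, pow_succ' (max κ1 κ2 * ‖x 0 i‖ ^ d), ← mul_assoc]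
      exact mul_le_mul hk1 (pow_le_pow_left₀ ha0 hk2 k) (by positivity)
        (le_trans (by positivity) hk1)
  choose b C κ' hb h0 h1 hbd using key
  obtain ⟨κ, hκ0, hκ1, hκ⟩ := exists_lt_one Finset.univ κ' (fun i _ => h1 i)
  obtain ⟨C', hC0, hC'⟩ := exists_ub Finset.univ C
  refine ⟨b, C', κ, hb, hκ0, hκ1, fun n i => (hbd i n).trans ?_⟩
  calc C i * κ' i ^ (d ^ n) ≤ C' * κ' i ^ (d ^ n) :=
        mul_le_mul_of_nonneg_right (hC' i (Finset.mem_univ i)) (pow_nonneg (h0 i) _)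
    _ ≤ C' * κ ^ (d ^ n) := by
        refine mul_le_mul_of_nonneg_left ?_ hC0
        exact pow_le_pow_left₀ (h0 i) (hκ i (Finset.mem_univ i)) _

/-- `κ^(d^n) → 0`. -/
lemma tendsto_pow_pow {κ : ℝ} (h0 : 0 ≤ κ) (h1 : κ < 1) (hd : 2 ≤ d) :
    Tendsto (fun n => κ ^ (d ^ n)) atTop (𝓝 0) :=
  (tendsto_pow_atTop_nhds_zero_of_lt_one h0 h1).comp
    (tendsto_pow_atTop_atTop_of_one_lt (by omega))

lemma norm_boettcher (hd : 2 ≤ d) {b : ι → K} {C κ : ℝ} (hb : ∀ i, b i ≠ 0) (h0 : 0 ≤ κ)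
    (h1 : κ < 1) (hbd : ∀ n i, ‖x n i / b i ^ (d ^ n) - 1‖ ≤ C * κ ^ (d ^ n))
    (hnorm : ∀ n i, ‖x n i‖ = ‖x 0 i‖ ^ (d ^ n)) (i : ι) : ‖b i‖ = ‖x 0 i‖ := by
  have ht : Tendsto (fun n => C * κ ^ (d ^ n)) atTop (𝓝 0) := by
    simpa using (tendsto_pow_pow (d := d) h0 h1 hd).const_mul C
  obtain ⟨n, hn⟩ := (ht.eventually (gt_mem_nhds (show (0 : ℝ) < 1 from zero_lt_one))).exists
  have h2 : ‖x n i / b i ^ (d ^ n) - 1‖ < 1 := (hbd n i).trans_lt hn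
  have h3 : ‖x n i / b i ^ (d ^ n)‖ = 1 := by
    have h4 : x n i / b i ^ (d ^ n) = 1 + (x n i / b i ^ (d ^ n) - 1) := by ring
    rw [h4, norm_add_eq_left (by rwa [norm_one]), norm_one]
  have hbn : 0 < ‖b i‖ := norm_pos_iff.mpr (hb i)
  rw [norm_div, norm_pow, div_eq_one_iff_eq (by positivity), hnorm] at h3
  have hm : d ^ n ≠ 0 := pow_ne_zero _ (by omega)
  exact ((pow_left_inj₀ (norm_nonneg _) (norm_nonneg _) hm).mp h3).symm

end Pool.Agent.W600.DM
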