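import Pool.Agent.W600.DM.Theta

set_option autoImplicit false
set_option linter.unusedSectionVars false

open Filter Topology PowerSeries

namespace Pool.Agent.W600.DM

theorem core (hEv : S_Ev) (hPhi : S_EvPhi) (hSol : S_Sol) (hY : S_Y) (hU : S_Uniq)
    (hLow : S_Low) : S_Core := by
  intro K _ _ _ _ _ p hp hpn hL ι _ d hd hpd T c x hx hx0 hdom
  have hδ := norm_d_lt hpn hpd
  have hnorm := orbit_norm hd hx hx0 hdom
  obtain ⟨b, C, κ, hb, hκ0, hκ1, hbd⟩ := boettcher hY hd hδ hx hx0 hdom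
  have hbn := norm_boettcher hd hb hκ0 hκ1 hbd hnorm
  obtain ⟨π, μ, hπ0, hπ1, hμ⟩ := exists_pi hp hpn hL b hb
  have hπpos : 0 < ‖π‖ := norm_pos_iff.mpr hπ0
  have hπz : ∀ i, π ^ (μ i) ≠ 0 := fun i => zpow_ne_zero _ hπ0
  set u : ι → K := fun i => b i / π ^ (μ i) with hu
  have hbu : ∀ i, u i * π ^ (μ i) = b i := fun i => div_mul_cancel₀ _ (hπz i)
  have hu1 : ∀ i, ‖u i‖ = 1 := by
    intro i
    rw [hu]
    simp only [norm_div, norm_zpow, hμ i]
    exact div_self (zpow_ne_zero _ hπpos.ne')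
  have hu0 : ∀ i, u i ≠ 0 := fun i => by
    rw [← norm_pos_iff, hu1]; exact one_pos
  obtain ⟨n₀, M, hM, hlow⟩ := hLow K p hp hpn ι d hd hpd u hu1
    (fun i => unit_pow hp hpn hL (hu1 i))
  -- exponents
  have hE : ∀ i, ∀ β ∈ T i, 1 ≤ (∑ j, μ j * (β j : ℤ)) - d * μ i := by
    intro i β hβ
    have h1 := (hdom i β hβ).2
    rw [← hbn i, hμ i] at h1
    have h2 : ∏ j, ‖x 0 j‖ ^ (β j) = ‖π‖ ^ (∑ j, μ j * (β j : ℤ)) := by
      rw [← prod_zpow_aux hπpos.ne']
      exact Finset.prod_congr rfl fun j _ => by rw [← hbn j, hμ j]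
    rw [h2, ← zpow_natCast, ← zpow_mul, zpow_lt_zpow_iff_right_of_lt_one₀ hπpos hπ1] at h1
    have h3 : (d : ℤ) * μ i = μ i * (d : ℤ) := mul_comm _ _
    omega
  set e : ι → (ι → ℕ) → ℕ := fun i β => ((∑ j, μ j * (β j : ℤ)) - d * μ i).toNat with he
  have he' : ∀ i, ∀ β ∈ T i, (e i β : ℤ) = (∑ j, μ j * (β j : ℤ)) - d * μ i := by
    intro i β hβ
    rw [he]
    have := hE i β hβ
    simp only
    rw [Int.toNat_of_nonneg (by omega)]
  have he1 : ∀ i, ∀ β ∈ T i, 1 ≤ e i β := by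
    intro i β hβ
    have h1 := hE i β hβ
    have h2 := he' i β hβ
    omega
  set w : ι → (ι → ℕ) → ℕ → K := fun i β n => ((∏ j, u j ^ β j) / u i ^ d) ^ (d ^ n) with hw
  have hwA : ∀ i β, w i β ∈ Alg d u := fun i β => div_mem_Alg d u β i
  have hw1 : ∀ i β n, ‖w i β n‖ = 1 := by
    intro i β n
    rw [hw]
    simp only [norm_pow, norm_div, norm_prod, hu1]
    simp
  obtain ⟨ρ, ξ, hρ, hρ1, hξ0, hξA, hξB, hξ⟩ := hSol K ι d hd hδ (Alg d u) (Alg_shift d u) T c e w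
    he1 (fun i β _ => ⟨hwA i β, fun n => (hw1 i β n).le⟩)
  have hsn : Tendsto (fun n => ‖π‖ ^ (d ^ n)) atTop (𝓝 0) := tendsto_pow_pow hπpos.le hπ1 hd
  obtain ⟨n₁, hn₁⟩ := eventually_atTop.mp (hsn.eventually (gt_mem_nhds hρ))
  have hs : ∀ n ≥ n₁, ‖π ^ (d ^ n)‖ < ρ := fun n hn => by rw [norm_pow]; exact hn₁ n hn
  -- the relation between w, s and b
  have hws : ∀ i, ∀ β ∈ T i, ∀ n, w i β n * (π ^ (d ^ n)) ^ (e i β) =
      ((∏ j, b j ^ β j) / b i ^ d) ^ (d ^ n) := by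
    intro i β hβ n
    have h1 : (π ^ (d ^ n)) ^ (e i β) = (π ^ ((e i β : ℕ) : ℤ)) ^ (d ^ n) := by
      rw [zpow_natCast, ← pow_mul, ← pow_mul, mul_comm]
    have h2 : ∏ j, b j ^ β j = (∏ j, u j ^ β j) * ∏ j, (π ^ (μ j)) ^ (β j) := by
      rw [← Finset.prod_mul_distrib]
      exact Finset.prod_congr rfl fun j _ => by rw [← mul_pow, hbu]
    have h3 : b i ^ d = u i ^ d * (π ^ (μ i)) ^ d := by rw [← mul_pow, hbu]
    rw [h1, he' i β hβ, hw]
    simp only
    rw [← mul_pow, h2, h3, prod_zpow_aux hπ0, zpow_sub₀ hπ0, mul_comm (d : ℤ) (μ i), zpow_mul,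
      zpow_natCast, mul_div_mul_comm]
  have hbp : ∀ n i, b i ^ (d ^ n) ≠ 0 := fun n i => pow_ne_zero _ (hb i)
  -- uniqueness
  obtain ⟨n₂, hn₂⟩ := hU K ι d hd hδ T (fun i β n => c i β * (w i β n * (π ^ (d ^ n)) ^ (e i β)))
    (fun n i => x n i / b i ^ (d ^ n) - 1) (fun n i => ev (π ^ (d ^ n)) n (ξ i))
    (max C (1 / ρ)) (max κ ‖π‖) n₁ (le_max_of_le_left hκ0) (max_lt hκ1 hπ1)
    (by
      intro i β hβ
      rw [tendsto_zero_iff_norm_tendsto_zero]
      refine squeeze_zero (fun n => norm_nonneg _) (fun n => ?_)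
        (by simpa using hsn.const_mul ‖c i β‖ : Tendsto (fun n => ‖c i β‖ * ‖π‖ ^ (d ^ n)) atTop (𝓝 0))
      rw [norm_mul, norm_mul, hw1, one_mul, norm_pow, norm_pow]
      refine mul_le_mul_of_nonneg_left ?_ (norm_nonneg _)
      exact pow_le_of_le_one (by positivity) (pow_le_one₀ hπpos.le hπ1.le)
        (by have := he1 i β hβ; omega))
    (by
      intro n hn i
      refine (hbd n i).trans ?_
      exact mul_le_mul (le_max_left _ _) (pow_le_pow_left₀ hκ0 (le_max_left _ _) _)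
        (by positivity) (le_max_of_le_right (by positivity)))
    (by
      intro n hn i
      refine (theta_bound hρ (hξB i) (hξ0 i) (hs n hn)).trans ?_
      rw [norm_pow, div_eq_inv_mul, ← one_div]
      exact mul_le_mul (le_max_right _ _) (pow_le_pow_left₀ hπpos.le (le_max_right _ _) _)
        (by positivity) (le_max_of_le_right (by positivity)))
    (by
      intro n hn i
      simp only [add_sub_cancel]
      rw [hx n i, add_div, div_pow, ← pow_mul, pow_succ, Finset.sum_div]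
      congr 1
      refine Finset.sum_congr rfl fun β hβ => ?_
      rw [hws i β hβ n, div_pow, ← pow_mul (b i), mul_comm d (d ^ n)]
      have h1 : ∏ j, (x n j / b j ^ d ^ n) ^ β j =
          (∏ j, x n j ^ β j) / (∏ j, b j ^ β j) ^ (d ^ n) := by
        rw [← Finset.prod_pow, ← Finset.prod_div_distrib]
        refine Finset.prod_congr rfl fun j _ => ?_
        rw [div_pow, ← pow_mul, ← pow_mul, mul_comm (β j)]
      rw [h1]
      have h2 : (∏ j, b j ^ β j) ^ (d ^ n) ≠ 0 :=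
        pow_ne_zero _ (Finset.prod_ne_zero_iff.mpr fun j _ => pow_ne_zero _ (hb j))
      have h3 : b i ^ (d ^ n * d) ≠ 0 := pow_ne_zero _ (hb i)
      field_simp)
    (by
      intro n hn i
      have h1 := theta_eq (T := T) (c := c) (n := n) hEv hPhi (Alg_shift d u) hρ hρ1 (by omega) hwA
        (fun i β n => (hw1 i β n).le) hξA hξB hξ (hs n hn) i
      rw [← pow_mul, ← pow_succ] at h1
      exact h1)
  -- the orbit
  have horb : ∀ n ≥ max n₁ n₂, (fun j => (u j * π ^ (μ j)) ^ (d ^ n) *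
      (1 + ev (π ^ (d ^ n)) n (ξ j))) = x n := by
    intro n hn
    funext j
    have h1 : x n j / b j ^ (d ^ n) - 1 = ev (π ^ (d ^ n)) n (ξ j) :=
      congrFun (hn₂ n (le_trans (le_max_right _ _) hn)) j
    rw [← h1, hbu, add_sub_cancel, mul_div_cancel₀ _ (hbp n j)]
  refine ⟨M, hM, fun P => ?_⟩
  obtain ⟨κ₀, H, B, HA, HB, hev⟩ := poly_series hEv hu1 hρ hξA hξB P hπ0 (μ := μ)
  have hevP : ∀ n ≥ max n₁ n₂, ev (π ^ (d ^ n)) n H =
      (π ^ (d ^ n)) ^ κ₀ * MvPolynomial.eval (x n) P := by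
    intro n hn
    rw [hev n (hs n (le_trans (le_max_left _ _) hn)), horb n hn]
  have hspos : ∀ n, 0 < ‖π ^ (d ^ n)‖ := fun n => norm_pos_iff.mpr (pow_ne_zero _ hπ0)
  apply evPer_of_classes hM (n₀ := n₀)
  intro r hr
  have hlarge : ∀ᶠ j : ℕ in atTop, max n₁ n₂ ≤ r + M * j := by
    filter_upwards [eventually_ge_atTop (max n₁ n₂)] with j hj
    calc max n₁ n₂ ≤ j := hj
      _ ≤ M * j := Nat.le_mul_of_pos_left j (by omega)
      _ ≤ r + M * j := Nat.le_add_left _ _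
  by_cases hall : ∀ k, ∀ j, coeff k H (r + M * j) = 0
  · left
    filter_upwards [hlarge] with j hj
    have h1 := hevP _ hj
    have h2 : ev (π ^ (d ^ (r + M * j))) (r + M * j) H = 0 := by
      rw [ev]
      simp [hall]
    rw [h2] at h1
    rcases mul_eq_zero.mp h1.symm with h3 | h3
    · exact absurd h3 (pow_ne_zero _ (pow_ne_zero _ hπ0))
    · exact h3
  · right
    push Not at hall
    classical
    set k₀ := Nat.find hall with hk₀
    have hk1 : ∃ j, coeff k₀ H (r + M * j) ≠ 0 := Nat.find_spec hall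
    have hk2 : ∀ k < k₀, ∀ j, coeff k H (r + M * j) = 0 := by
      intro k hk
      have := Nat.find_min hall hk
      push Not at this
      exact this
    rcases hlow (coeff k₀ H) (HA k₀) r hr with h0 | ⟨c', k', j₁, hc', hlb⟩
    · obtain ⟨j, hj⟩ := hk1
      exact absurd (h0 j) hj
    have hdne : 0 < ‖(d : K)‖ := norm_pos_iff.mpr (Nat.cast_ne_zero.mpr (by omega))
    filter_upwards [hlarge, eventually_ge_atTop j₁, superexp (B := B / ρ ^ (k₀ + 1)) hπpos.le hπ1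
      (pow_pos hdne k') hc'] with j hj hj1 hj2
    intro hmem
    have h1 := hevP _ hj
    have hmem' : MvPolynomial.eval (x (r + M * j)) P = 0 := hmem
    rw [hmem', mul_zero] at h1
    have h2 := ev_tail hρ HB (n := r + M * j) (hs _ (le_trans (le_max_left _ _) hj)) (k₀ := k₀)
      (fun k hk => hk2 k hk j)
    rw [h1, zero_sub, norm_neg, norm_mul, norm_pow, div_pow, pow_succ ‖π ^ d ^ (r + M * j)‖ k₀] at h2
    have h3 : ‖coeff k₀ H (r + M * j)‖ ≤ B / ρ ^ (k₀ + 1) * ‖π ^ d ^ (r + M * j)‖ := by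
      have h4 : 0 < ‖π ^ d ^ (r + M * j)‖ ^ k₀ := pow_pos (hspos _) _
      refine le_of_mul_le_mul_right ?_ h4
      calc _ ≤ _ := h2
        _ = _ := by ring
    have h5 : ‖π ^ d ^ (r + M * j)‖ ≤ ‖π‖ ^ (2 ^ j) := by
      rw [norm_pow]
      refine pow_le_pow_of_le_one hπpos.le hπ1.le ?_
      calc 2 ^ j ≤ d ^ j := Nat.pow_le_pow_left hd j
        _ ≤ d ^ (r + M * j) := Nat.pow_le_pow_right (by omega)
            (le_trans (Nat.le_mul_of_pos_left j (by omega)) (Nat.le_add_left _ _))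
    have h6 := hlb j hj1
    have hB0 : 0 ≤ B := HB.nonneg
    have h7 : B / ρ ^ (k₀ + 1) * ‖π ^ d ^ (r + M * j)‖ ≤ B / ρ ^ (k₀ + 1) * ‖π‖ ^ (2 ^ j) :=
      mul_le_mul_of_nonneg_left h5 (by positivity)
    rw [pow_mul] at h6
    linarith

end Pool.Agent.W600.DM
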