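import Pool.Agent.W600.DM.Core
import Pool.Agent.W405.DMY
import Pool.Agent.W349.DM.Uniq
import Pool.Agent.W349.DM.Cp
import Pool.Agent.W699.DMEXP
import Pool.Agent.W411.DM.Ev
import Pool.Agent.W411.DM.Sol
import Pool.Agent.W411.DM.Low

set_option autoImplicit false

namespace Pool.Agent.W600.DM

/-- the core theorem, unconditional. -/
theorem coreT : S_Core :=
  core W411.DM.ev_main W411.DM.evphi_main W411.DM.sol_main W405.DMY.y_main _root_.W349.DM.uniq_main
    (W411.DM.Low.low_main W699.DM.exp_main)

end Pool.Agent.W600.DM
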