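import Mathlib

set_option autoImplicit false

open Filter Topology Finset

namespace Pool.Agent.W600.DM.Dens

lemma card_Icc (H : ℕ) : (Finset.Icc (-(H : ℤ)) H).card = 2 * H + 1 := by
  rw [Int.card_Icc]; omega

lemma card_class (D : ℕ) (hD : 0 < D) (v : ℤ) (H : ℕ) :
    ((Finset.Icc (-(H : ℤ)) H).filter (fun a => a ≡ v [ZMOD D])).card ≤ (2 * H + 1) / D + 1 := by
  have h0 : Finset.Icc (-(H : ℤ)) H = Finset.Ioc (-(H : ℤ) - 1) H := by
    ext a; simp only [Finset.mem_Icc, Finset.mem_Ioc]; omega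
  rw [h0]
  have h5 : ((2 * H + 1 : ℕ) : ℚ) / D < (((2 * H + 1) / D : ℕ) : ℚ) + 1 := by
    have hDq : (0 : ℚ) < (D : ℚ) := by exact_mod_cast hD
    rw [div_lt_iff₀ hDq]
    have := Nat.lt_div_mul_add hD (a := 2 * H + 1)
    have h6 : (2 * H + 1) < ((2 * H + 1) / D + 1) * D := by rw [add_mul, one_mul]; exact this
    exact_mod_cast h6
  obtain ⟨q, hq⟩ : ∃ q, q = (2 * H + 1) / D := ⟨_, rfl⟩
  rw [← hq] at h5 ⊢
  have h1 := Int.Ioc_filter_modEq_card (-(H : ℤ) - 1) H (r := (D : ℤ)) (by exact_mod_cast hD) v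
  have hDq : (0 : ℚ) < (D : ℚ) := by exact_mod_cast hD
  have h2 : (⌊((H : ℤ) - v : ℚ) / ((D : ℤ) : ℚ)⌋ - ⌊(((-(H : ℤ) - 1 : ℤ) : ℚ) - v) / ((D : ℤ) : ℚ)⌋) ≤
      ((q + 1 : ℕ) : ℤ) := by
    rw [← Int.lt_add_one_iff]
    have h3 : ((⌊((H : ℤ) - v : ℚ) / ((D : ℤ) : ℚ)⌋ : ℤ) : ℚ) ≤ ((H : ℤ) - v : ℚ) / ((D : ℤ) : ℚ) :=
      Int.floor_le _
    have h4 : (((-(H : ℤ) - 1 : ℤ) : ℚ) - v) / ((D : ℤ) : ℚ) <
      ((⌊(((-(H : ℤ) - 1 : ℤ) : ℚ) - v) / ((D : ℤ) : ℚ)⌋ : ℤ) : ℚ) + 1 := Int.lt_floor_add_one _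
    have h7 : ((H : ℤ) - v : ℚ) / ((D : ℤ) : ℚ) - (((-(H : ℤ) - 1 : ℤ) : ℚ) - v) / ((D : ℤ) : ℚ) =
        ((2 * H + 1 : ℕ) : ℚ) / D := by
      rw [← sub_div]; push_cast; congr 1; ring
    have h8 : ((⌊((H : ℤ) - v : ℚ) / ((D : ℤ) : ℚ)⌋ -
        ⌊(((-(H : ℤ) - 1 : ℤ) : ℚ) - v) / ((D : ℤ) : ℚ)⌋ : ℤ) : ℚ) <
        ((((q + 1 : ℕ) : ℤ) + 1 : ℤ) : ℚ) := by
      push_cast at h3 h4 h5 h7 ⊢
      linarith
    exact_mod_cast h8
  have h9 : (((Finset.Ioc (-(H : ℤ) - 1) H).filter (fun a => a ≡ v [ZMOD D])).card : ℤ) ≤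
      ((q + 1 : ℕ) : ℤ) := by
    rw [h1]
    refine max_le ?_ (by positivity)
    simpa using h2
  exact_mod_cast h9

/-- box of integral vectors. -/
noncomputable def Bx (n H : ℕ) : Finset (Fin n → ℤ) := Fintype.piFinset fun _ => Finset.Icc (-(H : ℤ)) H

lemma mem_Bx {n H : ℕ} {α : Fin n → ℤ} : α ∈ Bx n H ↔ ∀ j, |α j| ≤ (H : ℤ) := by
  simp only [Bx, Fintype.mem_piFinset, Finset.mem_Icc, abs_le]

lemma card_Bx (n H : ℕ) : (Bx n H).card = (2 * H + 1) ^ n := by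
  rw [Bx, Fintype.card_piFinset]
  simp only [card_Icc, Finset.prod_const, Finset.card_univ, Fintype.card_fin]

/-- vectors of the box with prescribed sets of residues modulo the primes of `S`. -/
lemma card_bad (n H : ℕ) (S : Finset ℕ) (hS : ∀ p ∈ S, p.Prime)
    (G : ∀ p : ℕ, Finset (Fin n → ZMod p)) :
    ((Bx n H).filter (fun α => ∀ p ∈ S, (fun j => ((α j : ℤ) : ZMod p)) ∈ G p)).card ≤
      ((2 * H + 1) / (∏ p ∈ S, p) + 1) ^ n * ∏ p ∈ S, (G p).card := by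
  classical
  set D := ∏ p ∈ S, p with hD
  have hDpos : 0 < D := Finset.prod_pos fun p hp => (hS p hp).pos
  set s := (Bx n H).filter (fun α => ∀ p ∈ S, (fun j => ((α j : ℤ) : ZMod p)) ∈ G p) with hs
  let f : (Fin n → ℤ) → (∀ p : S, Fin n → ZMod p) := fun α p j => ((α j : ℤ) : ZMod p)
  have h1 : s.card ≤ ((2 * H + 1) / D + 1) ^ n * (s.image f).card := by
    refine Finset.card_le_mul_card_image s _ ?_
    intro a ha
    obtain ⟨v, hv, rfl⟩ := Finset.mem_image.mp ha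
    have h2 : s.filter (fun x => f x = f v) ⊆
        Fintype.piFinset (fun j => (Finset.Icc (-(H : ℤ)) H).filter (fun a => a ≡ v j [ZMOD D])) := by
      intro x hx
      rw [Finset.mem_filter] at hx
      obtain ⟨hx1, hx2⟩ := hx
      rw [Fintype.mem_piFinset]
      intro j
      rw [Finset.mem_filter]
      refine ⟨?_, ?_⟩
      · rw [hs, Finset.mem_filter] at hx1
        have := hx1.1
        rw [Bx, Fintype.mem_piFinset] at this
        exact this j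
      · rw [Int.modEq_comm, Int.modEq_iff_dvd]
        have h3 : ∀ p ∈ S, (p : ℤ) ∣ x j - v j := by
          intro p hp
          have h4 : ((x j : ℤ) : ZMod p) = ((v j : ℤ) : ZMod p) := congrFun (congrFun hx2 ⟨p, hp⟩) j
          rw [ZMod.intCast_eq_intCast_iff, Int.modEq_comm, Int.modEq_iff_dvd] at h4
          exact h4
        have h5 : ((∏ p ∈ S, p : ℕ) : ℤ) ∣ x j - v j := by
          rw [Int.natCast_dvd]
          refine Finset.prod_primes_dvd _ (fun p hp => (hS p hp).prime) ?_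
          intro p hp
          rw [← Int.natCast_dvd]
          exact h3 p hp
        exact h5
    refine (Finset.card_le_card h2).trans ?_
    rw [Fintype.card_piFinset]
    calc ∏ j, ((Finset.Icc (-(H : ℤ)) H).filter (fun a => a ≡ v j [ZMOD D])).card
        ≤ ∏ _j : Fin n, ((2 * H + 1) / D + 1) :=
          Finset.prod_le_prod' fun j _ => card_class D hDpos (v j) H
      _ = _ := by simp
  refine h1.trans (Nat.mul_le_mul_left _ ?_)
  have h2 : s.image f ⊆ Fintype.piFinset (fun p : S => G p) := by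
    intro a ha
    obtain ⟨v, hv, rfl⟩ := Finset.mem_image.mp ha
    rw [hs, Finset.mem_filter] at hv
    rw [Fintype.mem_piFinset]
    intro p
    exact hv.2 p p.2
  refine (Finset.card_le_card h2).trans ?_
  rw [Fintype.card_piFinset, Finset.prod_coe_sort S (fun p => (G p).card)]

end Pool.Agent.W600.DM.Dens
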