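import Pool.Agent.W600.DM.Prim

set_option autoImplicit false

open Filter Topology Finset

namespace Pool.Agent.W600.DM.Dens

/-- residue vectors modulo `p` which are not of the form (zero, unit, ..., unit). -/
noncomputable def G (N p : ℕ) : Finset (Fin (N + 1) → ZMod p) := by
  classical
  exact if hp : p.Prime then
    haveI := Fact.mk hp
    Finset.univ.filter (fun r => ¬ (r 0 = 0 ∧ ∀ i : Fin N, r i.succ ≠ 0))
  else ∅

lemma mem_G {N p : ℕ} (hp : p.Prime) (r : Fin (N + 1) → ZMod p) :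
    r ∈ G N p ↔ ¬ (r 0 = 0 ∧ ∀ i : Fin N, r i.succ ≠ 0) := by
  classical
  rw [G, dif_pos hp]
  simp

lemma card_G (N p : ℕ) (hp : p.Prime) : (G N p).card + (p - 1) ^ N = p ^ (N + 1) := by
  classical
  haveI := Fact.mk hp
  have h1 : G N p = Finset.univ.filter (fun r => ¬ (r 0 = 0 ∧ ∀ i : Fin N, r i.succ ≠ 0)) := by
    ext r
    rw [mem_G hp]
    simp
  have h2 : (Finset.univ.filter (fun r : Fin (N + 1) → ZMod p =>
      (r 0 = 0 ∧ ∀ i : Fin N, r i.succ ≠ 0))).card = (p - 1) ^ N := by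
    have h3 : Finset.univ.filter (fun r : Fin (N + 1) → ZMod p =>
      (r 0 = 0 ∧ ∀ i : Fin N, r i.succ ≠ 0)) = Fintype.piFinset
        (Fin.cons {0} (fun _ => Finset.univ.erase 0) : Fin (N + 1) → Finset (ZMod p)) := by
      ext r
      rw [Finset.mem_filter, Fintype.mem_piFinset]
      constructor
      · rintro ⟨_, h0, hi⟩ j
        refine Fin.cases ?_ (fun j => ?_) j
        · rw [Fin.cons_zero, Finset.mem_singleton]; exact h0
        · rw [Fin.cons_succ, Finset.mem_erase]; exact ⟨hi j, Finset.mem_univ _⟩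
      · intro h
        refine ⟨Finset.mem_univ _, ?_, fun i => ?_⟩
        · have := h 0
          rw [Fin.cons_zero, Finset.mem_singleton] at this
          exact this
        · have := h i.succ
          rw [Fin.cons_succ, Finset.mem_erase] at this
          exact this.1
    rw [h3, Fintype.card_piFinset, Fin.prod_univ_succ]
    simp [ZMod.card]
  have h4 := Finset.card_filter_add_card_filter_not (s := (Finset.univ : Finset (Fin (N + 1) → ZMod p)))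
    (fun r => (r 0 = 0 ∧ ∀ i : Fin N, r i.succ ≠ 0))
  rw [h2] at h4
  rw [h1]
  have h5 : (Finset.univ : Finset (Fin (N + 1) → ZMod p)).card = p ^ (N + 1) := by
    rw [Finset.card_univ, Fintype.card_fun, ZMod.card, Fintype.card_fin]
  omega

/-- the local density. -/
noncomputable def cp (N p : ℕ) : ℝ := ((p : ℝ) - 1) ^ N / (p : ℝ) ^ (N + 1)

lemma card_G_real (N p : ℕ) (hp : p.Prime) :
    ((G N p).card : ℝ) = (p : ℝ) ^ (N + 1) * (1 - cp N p) := by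
  have h := card_G N p hp
  have h1 : ((G N p).card : ℝ) + (((p - 1 : ℕ) : ℝ)) ^ N = (p : ℝ) ^ (N + 1) := by exact_mod_cast h
  rw [Nat.cast_sub hp.one_le, Nat.cast_one] at h1
  have hp0 : (p : ℝ) ^ (N + 1) ≠ 0 := pow_ne_zero _ (by exact_mod_cast hp.ne_zero)
  rw [cp, mul_sub, mul_one, mul_div_cancel₀ _ hp0]
  linarith

lemma cp_lower (N p : ℕ) (hp : p.Prime) : (1 / 2 : ℝ) ^ N * (1 / p) ≤ cp N p := by
  have hp2 : (2 : ℝ) ≤ p := by exact_mod_cast hp.two_le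
  have h1 : (1 / 2 : ℝ) ≤ ((p : ℝ) - 1) / p := by
    rw [div_le_div_iff₀ (by norm_num) (by linarith)]; linarith
  calc (1 / 2 : ℝ) ^ N * (1 / p) ≤ (((p : ℝ) - 1) / p) ^ N * (1 / p) :=
        mul_le_mul_of_nonneg_right (pow_le_pow_left₀ (by norm_num) h1 N) (by positivity)
    _ = cp N p := by rw [cp, div_pow, pow_succ]; field_simp

lemma exists_primes (N : ℕ) (E : Finset ℕ) {δ : ℝ} (hδ : 0 < δ) :
    ∃ S : Finset ℕ, (∀ p ∈ S, p.Prime ∧ p ∉ E) ∧ ∏ p ∈ S, (1 - cp N p) ≤ δ := by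
  classical
  -- divergence of the sum of the reciprocals of the primes
  have h1 : ∃ u : Finset Nat.Primes, (∀ p ∈ u, (p : ℕ) ∉ E) ∧
      (2 : ℝ) ^ N * (-Real.log δ) < ∑ p ∈ u, (1 : ℝ) / (p : ℕ) := by
    by_contra hcon
    push Not at hcon
    refine Nat.Primes.not_summable_one_div
      (summable_of_sum_le (c := (2 : ℝ) ^ N * (-Real.log δ) + E.card) (fun p => by positivity) ?_)
    intro u
    rw [← Finset.sum_filter_add_sum_filter_not u (fun p : Nat.Primes => (p : ℕ) ∉ E)]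
    refine add_le_add (hcon _ fun p hp => (Finset.mem_filter.mp hp).2) ?_
    calc ∑ p ∈ u.filter (fun p : Nat.Primes => ¬ (p : ℕ) ∉ E), (1 : ℝ) / (p : ℕ)
        ≤ ∑ _p ∈ u.filter (fun p : Nat.Primes => ¬ (p : ℕ) ∉ E), (1 : ℝ) := by
          refine Finset.sum_le_sum fun p _ => ?_
          rw [div_le_one (by exact_mod_cast p.2.pos)]
          exact_mod_cast p.2.one_le
      _ = ((u.filter (fun p : Nat.Primes => ¬ (p : ℕ) ∉ E)).card : ℝ) := by simp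
      _ ≤ (E.card : ℝ) := by
          norm_cast
          refine Finset.card_le_card_of_injOn (fun p : Nat.Primes => (p : ℕ)) ?_
            (Nat.Primes.coe_nat_injective.injOn)
          intro p hp
          have := (Finset.mem_filter.mp hp).2
          exact not_not.mp this
  obtain ⟨u, huE, hu⟩ := h1
  refine ⟨u.map ⟨fun p : Nat.Primes => (p : ℕ), Nat.Primes.coe_nat_injective⟩, ?_, ?_⟩
  · intro p hp
    rw [Finset.mem_map] at hp
    obtain ⟨q, hq, rfl⟩ := hp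
    exact ⟨q.2, huE q hq⟩
  · have hmap : ∏ p ∈ u.map ⟨fun p : Nat.Primes => (p : ℕ), Nat.Primes.coe_nat_injective⟩,
        (1 - cp N p) = ∏ p ∈ u, (1 - cp N (p : ℕ)) := Finset.prod_map _ _ _
    rw [hmap]
    have h2 : ∏ p ∈ u, (1 - cp N (p : ℕ)) ≤ ∏ p ∈ u, Real.exp (-((1 / 2 : ℝ) ^ N * (1 / (p : ℕ)))) := by
      refine Finset.prod_le_prod (fun p _ => ?_) (fun p _ => ?_)
      · have h3 := card_G_real N p p.2
        have h4 : (0 : ℝ) < ((p : ℕ) : ℝ) ^ (N + 1) :=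
          pow_pos (by exact_mod_cast p.2.pos) _
        have h5 : (0 : ℝ) ≤ ((p : ℕ) : ℝ) ^ (N + 1) * (1 - cp N p) := by
          rw [← h3]; positivity
        exact nonneg_of_mul_nonneg_right h5 h4
      · have h3 := cp_lower N p p.2
        have h4 := Real.add_one_le_exp (-((1 / 2 : ℝ) ^ N * (1 / (p : ℕ))))
        linarith
    refine h2.trans ?_
    rw [← Real.exp_sum, Finset.sum_neg_distrib, ← Finset.mul_sum]
    have h3 : Real.log δ ≥ -((1 / 2 : ℝ) ^ N * ∑ p ∈ u, (1 : ℝ) / (p : ℕ)) := by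
      have h4 : (1 / 2 : ℝ) ^ N * ((2 : ℝ) ^ N * (-Real.log δ)) = -Real.log δ := by
        rw [← mul_assoc, ← mul_pow]; norm_num
      have h5 : (1 / 2 : ℝ) ^ N * ((2 : ℝ) ^ N * (-Real.log δ)) <
          (1 / 2 : ℝ) ^ N * ∑ p ∈ u, (1 : ℝ) / (p : ℕ) :=
        mul_lt_mul_of_pos_left hu (by positivity)
      linarith
    calc Real.exp (-((1 / 2 : ℝ) ^ N * ∑ p ∈ u, (1 : ℝ) / (p : ℕ))) ≤ Real.exp (Real.log δ) :=
          Real.exp_le_exp.mpr h3
      _ = δ := Real.exp_log hδ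

/-- bad vectors. -/
def Bad (N : ℕ) (S : Finset ℕ) (α : Fin (N + 1) → ℤ) : Prop :=
  α 0 = 0 ∨ ∀ p ∈ S, ¬ ((p : ℤ) ∣ α 0 ∧ ∀ i : Fin N, ¬ (p : ℤ) ∣ α i.succ)

lemma card_zero (N H : ℕ) : ((Bx (N + 1) H).filter (fun α => α 0 = 0)).card ≤ (2 * H + 1) ^ N := by
  classical
  have h1 : (Bx (N + 1) H).filter (fun α => α 0 = 0) ⊆ (Bx N H).image (fun r => Fin.cons 0 r) := by
    intro α hα
    rw [Finset.mem_filter, mem_Bx] at hα
    rw [Finset.mem_image]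
    refine ⟨Fin.tail α, ?_, ?_⟩
    · rw [mem_Bx]; intro j; exact hα.1 j.succ
    · have := Fin.cons_self_tail α
      rw [hα.2] at this
      exact this
  calc _ ≤ _ := Finset.card_le_card h1
    _ ≤ (Bx N H).card := Finset.card_image_le
    _ = _ := card_Bx N H

/-- the numerical part. -/
lemma num (m H D q Kc : ℕ) (ε P : ℝ) (hε : 0 < ε) (hD : 0 < D) (hDH : D ≤ H)
    (hq : (q : ℝ) ≤ (2 * H + 1) / D) (hK : 72 / ε < Kc) (hKH : Kc ≤ H) (hP0 : 0 ≤ P)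
    (hP : P ≤ ε / (72 * 2 ^ (m + 1 + 1))) :
    (2 * H + 1 : ℝ) ^ (m + 1) + ((q : ℝ) + 1) ^ (m + 1 + 1) * ((D : ℝ) ^ (m + 1 + 1) * P) ≤
      ε * ((2 * H + 1 : ℝ) ^ (m + 1 + 1) / 36) := by
  obtain ⟨n, hn⟩ : ∃ n, n = m + 1 + 1 := ⟨_, rfl⟩
  rw [← hn] at hP ⊢
  have hHr : (D : ℝ) ≤ H := by exact_mod_cast hDH
  have hDr : (0 : ℝ) < D := by exact_mod_cast hD
  have h1 : ((q : ℝ) + 1) * D ≤ 2 * (2 * H + 1) := by
    rw [le_div_iff₀ hDr] at hq
    linarith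
  have h2 : ((q : ℝ) + 1) ^ n * (D : ℝ) ^ n ≤ 2 ^ n * (2 * H + 1 : ℝ) ^ n := by
    rw [← mul_pow, ← mul_pow]
    exact pow_le_pow_left₀ (by positivity) h1 n
  have hfirst : ((2 * H + 1 : ℝ)) ^ (m + 1) ≤ ε / 72 * (2 * H + 1 : ℝ) ^ n := by
    rw [hn, pow_succ _ (m + 1)]
    have h5 : 1 ≤ ε / 72 * (2 * H + 1 : ℝ) := by
      have h6 : (72 / ε : ℝ) < H := hK.trans_le (by exact_mod_cast hKH)
      rw [div_lt_iff₀ hε] at h6
      have : (0 : ℝ) ≤ H := by positivity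
      nlinarith
    calc (2 * H + 1 : ℝ) ^ (m + 1) = (2 * H + 1 : ℝ) ^ (m + 1) * 1 := by rw [mul_one]
      _ ≤ (2 * H + 1 : ℝ) ^ (m + 1) * (ε / 72 * (2 * H + 1 : ℝ)) :=
          mul_le_mul_of_nonneg_left h5 (by positivity)
      _ = _ := by ring
  calc (2 * H + 1 : ℝ) ^ (m + 1) + ((q : ℝ) + 1) ^ n * ((D : ℝ) ^ n * P)
      = (2 * H + 1 : ℝ) ^ (m + 1) + (((q : ℝ) + 1) ^ n * (D : ℝ) ^ n) * P := by ring
    _ ≤ ε / 72 * (2 * H + 1 : ℝ) ^ n + (2 ^ n * (2 * H + 1 : ℝ) ^ n) * (ε / (72 * 2 ^ n)) :=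
        add_le_add hfirst (mul_le_mul h2 hP hP0 (by positivity))
    _ = ε * ((2 * H + 1 : ℝ) ^ n / 36) := by
        have : (2 : ℝ) ^ n ≠ 0 := by positivity
        field_simp
        ring

/-- **density of the good points.** -/
theorem dens (N : ℕ) (hN : 1 ≤ N) (E : Finset ℕ) (ε : ℝ) (hε : 0 < ε) :
    ∃ S : Finset ℕ, (∀ p ∈ S, p.Prime ∧ p ∉ E) ∧ ∃ H₀ : ℕ, ∀ H : ℕ, H₀ ≤ H →
      ∀ T : Finset (Fin (N + 1) → ℤ), (∀ α ∈ T, α ∈ Bx (N + 1) H ∧ Bad N S α) →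
        (T.card : ℝ) ≤ ε * ((Pr (N + 1) H).card : ℝ) := by
  classical
  obtain ⟨m, rfl⟩ : ∃ m, N = m + 1 := ⟨N - 1, by omega⟩
  have hδ : 0 < ε / (72 * 2 ^ (m + 1 + 1)) := by positivity
  obtain ⟨S, hSE, hprod⟩ := exists_primes (m + 1) E hδ
  have hS : ∀ p ∈ S, p.Prime := fun p hp => (hSE p hp).1
  obtain ⟨D, hD⟩ : ∃ D, D = ∏ p ∈ S, p := ⟨_, rfl⟩
  have hDpos : 0 < D := by rw [hD]; exact Finset.prod_pos fun p hp => (hS p hp).pos
  obtain ⟨Kc, hK⟩ := exists_nat_gt (72 / ε)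
  refine ⟨S, hSE, max D (max Kc 1), fun H hH T hT => ?_⟩
  have hH1 : D ≤ H := (le_max_left _ _).trans hH
  have hH2 : Kc ≤ H := (le_max_left _ _).trans ((le_max_right _ _).trans hH)
  have hH3 : 1 ≤ H := (le_max_right _ _).trans ((le_max_right _ _).trans hH)
  have hsub : T ⊆ (Bx (m + 1 + 1) H).filter (fun α => α 0 = 0) ∪
      (Bx (m + 1 + 1) H).filter
        (fun α => ∀ p ∈ S, (fun j => ((α j : ℤ) : ZMod p)) ∈ G (m + 1) p) := by
    intro α hα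
    obtain ⟨h1, h2⟩ := hT α hα
    rw [Finset.mem_union, Finset.mem_filter, Finset.mem_filter]
    rcases h2 with h2 | h2
    · exact Or.inl ⟨h1, h2⟩
    · refine Or.inr ⟨h1, fun p hp => ?_⟩
      rw [mem_G (hS p hp)]
      intro h3
      refine h2 p hp ⟨?_, fun i => ?_⟩
      · exact (CharP.intCast_eq_zero_iff (ZMod p) p _).mp h3.1
      · intro h4
        exact h3.2 i ((CharP.intCast_eq_zero_iff (ZMod p) p _).mpr h4)
  obtain ⟨q, hq⟩ : ∃ q, q = (2 * H + 1) / D := ⟨_, rfl⟩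
  obtain ⟨g, hg⟩ : ∃ g : ℕ, g = ∏ p ∈ S, (G (m + 1) p).card := ⟨_, rfl⟩
  have hbad := card_bad (m + 1 + 1) H S hS (G (m + 1))
  rw [← hD, ← hq, ← hg] at hbad
  have hcard : T.card ≤ (2 * H + 1) ^ (m + 1) + (q + 1) ^ (m + 1 + 1) * g := by
    calc T.card ≤ _ := Finset.card_le_card hsub
      _ ≤ _ := Finset.card_union_le _ _
      _ ≤ _ := Nat.add_le_add (card_zero (m + 1) H) hbad
  have hprod2 : (g : ℝ) = (D : ℝ) ^ (m + 1 + 1) * ∏ p ∈ S, (1 - cp (m + 1) p) := by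
    rw [hg, hD, Nat.cast_prod, Nat.cast_prod, ← Finset.prod_pow, ← Finset.prod_mul_distrib]
    exact Finset.prod_congr rfl fun p hp => card_G_real (m + 1) p (hS p hp)
  have h3 : 0 ≤ ∏ p ∈ S, (1 - cp (m + 1) p) := by
    have h4 : (0 : ℝ) ≤ (D : ℝ) ^ (m + 1 + 1) * ∏ p ∈ S, (1 - cp (m + 1) p) := by
      rw [← hprod2]; positivity
    exact nonneg_of_mul_nonneg_right h4 (by positivity)
  have hqr : (q : ℝ) ≤ (2 * H + 1) / D := by
    have h5 : ((((2 * H + 1) / D : ℕ)) : ℝ) ≤ ((2 * H + 1 : ℕ) : ℝ) / D := Nat.cast_div_le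
    rw [← hq] at h5
    have h6 : ((2 * H + 1 : ℕ) : ℝ) = 2 * (H : ℝ) + 1 := by push_cast; ring
    rwa [h6] at h5
  have hnum := num m H D q Kc ε _ hε hDpos hH1 hqr hK hH2 h3 hprod
  rw [← hprod2] at hnum
  have hPr := card_Pr m H hH3
  have hcard' : (T.card : ℝ) ≤ (2 * H + 1 : ℝ) ^ (m + 1) + ((q : ℝ) + 1) ^ (m + 1 + 1) * g := by
    exact_mod_cast hcard
  calc (T.card : ℝ) ≤ _ := hcard'
    _ ≤ _ := hnum
    _ ≤ ε * ((Pr (m + 1 + 1) H).card : ℝ) := mul_le_mul_of_nonneg_left hPr hε.le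

end Pool.Agent.W600.DM.Dens
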