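import Pool.Agent.W600.DM.Red

set_option autoImplicit false
set_option linter.unusedSectionVars false

open Filter Topology

namespace Pool.Agent.W600.DM

variable {ι : Type} [Fintype ι]

lemma norm_p_lt (p : ℕ) [Fact p.Prime] : ‖(p : ℂ_[p])‖ < 1 := by
  have h1 : (p : ℂ_[p]) = ((p : ℚ_[p]) : ℂ_[p]) := by
    rw [← map_natCast (algebraMap ℚ_[p] ℂ_[p])]
    rfl
  rw [h1, PadicComplex.norm_extends']
  exact Padic.norm_p_lt_one

lemma eval_hom {L K : Type} [Field L] [Field K] (τ : L →+* K) (x : ι → L)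
    (Q : MvPolynomial ι L) :
    MvPolynomial.eval (fun j => τ (x j)) (MvPolynomial.map τ Q) = τ (MvPolynomial.eval x Q) := by
  rw [MvPolynomial.eval_map, MvPolynomial.eval_eq, MvPolynomial.eval₂_eq, map_sum]
  refine Finset.sum_congr rfl fun δ _ => ?_
  rw [map_mul, map_prod]
  simp only [map_pow]

lemma eval_scale {K : Type} [Field K] (l z : ι → K) (Q : MvPolynomial ι K) :
    MvPolynomial.eval z (MvPolynomial.aeval (fun j => MvPolynomial.C (l j) * MvPolynomial.X j) Q) =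
      MvPolynomial.eval (fun j => l j * z j) Q := by
  rw [MvPolynomial.aeval_def, MvPolynomial.eval₂_eq, map_sum, MvPolynomial.eval_eq]
  refine Finset.sum_congr rfl fun δ _ => ?_
  simp [map_mul, map_prod, map_pow]

/-- polynomial form of the core theorem over `ℂ_p`, leading coefficients one, conditions at time
zero. -/
theorem K1 (p : ℕ) [Fact p.Prime] {d : ℕ} (hd : 2 ≤ d) (hpd : p ∣ d)
    (P : ι → MvPolynomial ι ℂ_[p]) (y : ℕ → ι → ℂ_[p])
    (hy : ∀ n i, y (n + 1) i = y n i ^ d + MvPolynomial.eval (y n) (P i))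
    (hy0 : ∀ i, y 0 i ≠ 0)
    (hdom : ∀ i, ∀ β ∈ (P i).support,
      ‖MvPolynomial.coeff β (P i)‖ * ∏ j, ‖y 0 j‖ ^ (β j) < ‖y 0 i‖ ^ d ∧
        ∏ j, ‖y 0 j‖ ^ (β j) < ‖y 0 i‖ ^ d) :
    ∃ M : ℕ, 1 ≤ M ∧ ∀ Q : MvPolynomial ι ℂ_[p], EvPer M {n | MvPolynomial.eval (y n) Q = 0} := by
  classical
  let em : (ι →₀ ℕ) ↪ (ι → ℕ) := (Finsupp.equivFunOnFinite (α := ι) (M := ℕ)).toEmbedding
  refine coreT ℂ_[p] p (Fact.out) (norm_p_lt p) (W349.DM.cp_main p) ι d hd hpd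
    (fun i => (P i).support.map em)
    (fun i β => MvPolynomial.coeff (Finsupp.equivFunOnFinite.symm β) (P i)) y ?_ hy0 ?_
  · intro n i
    rw [hy n i, MvPolynomial.eval_eq', Finset.sum_map]
    congr 1
    refine Finset.sum_congr rfl fun β _ => ?_
    simp [em]
  · intro i β hβ
    rw [Finset.mem_map] at hβ
    obtain ⟨δ, hδ, rfl⟩ := hβ
    have h := hdom i δ hδ
    simpa [em] using h

/-- general leading coefficients and asymptotic conditions over `ℂ_p`. -/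
theorem K2 (p : ℕ) [Fact p.Prime] {d : ℕ} (hd : 2 ≤ d) (hpd : p ∣ d) (a : ι → ℂ_[p])
    (ha : ∀ i, a i ≠ 0) (P : ι → MvPolynomial ι ℂ_[p]) (y : ℕ → ι → ℂ_[p])
    (hy : ∀ n i, y (n + 1) i = a i * y n i ^ d + MvPolynomial.eval (y n) (P i))
    (hy0 : ∀ᶠ n in atTop, ∀ i, y n i ≠ 0)
    (hdom : ∀ i, ∀ β ∈ (P i).support,
      Tendsto (fun n => ‖∏ j, y n j ^ (β j)‖ / ‖y n i‖ ^ d) atTop (𝓝 0)) :
    ∃ M : ℕ, 1 ≤ M ∧ ∀ Q : MvPolynomial ι ℂ_[p], EvPer M {n | MvPolynomial.eval (y n) Q = 0} := by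
  classical
  have hex : ∀ i, ∃ l : ℂ_[p], l ^ (d - 1) = a i := fun i =>
    IsAlgClosed.exists_pow_nat_eq (a i) (by omega)
  choose l hl using hex
  have hl0 : ∀ i, l i ≠ 0 := by
    intro i h
    have := hl i
    rw [h, zero_pow (by omega)] at this
    exact ha i this.symm
  have hld : ∀ i, l i * a i = l i ^ d := by
    intro i
    rw [← hl i, ← pow_succ']
    congr 1
    omega
  -- scaled coefficients
  let c : ι → (ι →₀ ℕ) → ℂ_[p] := fun i β =>
    l i * MvPolynomial.coeff β (P i) * ∏ j, ((l j)⁻¹) ^ (β j)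
  -- ratios
  have hratio : ∀ i, ∀ β ∈ (P i).support, ∀ C : ℝ,
      Tendsto (fun n => C * (‖∏ j, (l j * y n j) ^ (β j)‖ / ‖l i * y n i‖ ^ d)) atTop (𝓝 0) := by
    intro i β hβ C
    have h1 := (hdom i β hβ).const_mul (C * (‖∏ j, l j ^ (β j)‖ / ‖l i‖ ^ d))
    rw [mul_zero] at h1
    refine h1.congr fun n => ?_
    have h2 : ∏ j, (l j * y n j) ^ (β j) = (∏ j, l j ^ (β j)) * ∏ j, y n j ^ (β j) := by
      rw [← Finset.prod_mul_distrib]
      exact Finset.prod_congr rfl fun j _ => mul_pow _ _ _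
    rw [h2, norm_mul, norm_mul, mul_pow, mul_div_mul_comm]
    ring
  have hev : ∀ᶠ n in atTop, (∀ i, y n i ≠ 0) ∧ ∀ i, ∀ β ∈ (P i).support,
      ‖c i β‖ * (‖∏ j, (l j * y n j) ^ (β j)‖ / ‖l i * y n i‖ ^ d) < 1 := by
    refine hy0.and ?_
    rw [eventually_all]
    intro i
    rw [eventually_all_finset]
    intro β hβ
    exact (hratio i β hβ _).eventually (gt_mem_nhds one_pos)
  obtain ⟨n₀, hn₀⟩ := eventually_atTop.mp hev
  set z : ℕ → ι → ℂ_[p] := fun n i => l i * y (n₀ + n) i with hz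
  have hz0 : ∀ n i, z n i ≠ 0 := fun n i =>
    mul_ne_zero (hl0 i) ((hn₀ (n₀ + n) (Nat.le_add_right _ _)).1 i)
  have hrec : ∀ n i, z (n + 1) i = z n i ^ d +
      ∑ β ∈ (P i).support, c i β * ∏ j, z n j ^ (β j) := by
    intro n i
    have h1 : z (n + 1) i = l i * (a i * y (n₀ + n) i ^ d +
        MvPolynomial.eval (y (n₀ + n)) (P i)) := by
      rw [← hy (n₀ + n) i]; rfl
    rw [h1, mul_add, ← mul_assoc, hld, ← mul_pow, MvPolynomial.eval_eq', Finset.mul_sum]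
    congr 1
    refine Finset.sum_congr rfl fun β _ => ?_
    have h2 : ∏ j, z n j ^ (β j) = (∏ j, l j ^ (β j)) * ∏ j, y (n₀ + n) j ^ (β j) := by
      rw [← Finset.prod_mul_distrib]
      exact Finset.prod_congr rfl fun j _ => mul_pow _ _ _
    have h3 : (∏ j, ((l j)⁻¹) ^ (β j)) * ∏ j, l j ^ (β j) = 1 := by
      rw [← Finset.prod_mul_distrib]
      refine Finset.prod_eq_one fun j _ => ?_
      rw [← mul_pow, inv_mul_cancel₀ (hl0 j), one_pow]
    rw [h2]
    simp only [c]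
    calc l i * (MvPolynomial.coeff β (P i) * ∏ j, y (n₀ + n) j ^ (β j))
        = l i * MvPolynomial.coeff β (P i) * 1 * ∏ j, y (n₀ + n) j ^ (β j) := by ring
      _ = _ := by rw [← h3]; ring
  have hlt : ∀ n i, ∀ β ∈ (P i).support, ‖c i β‖ * ‖∏ j, z n j ^ (β j)‖ < ‖z n i‖ ^ d := by
    intro n i β hβ
    have h1 := (hn₀ (n₀ + n) (Nat.le_add_right _ _)).2 i β hβ
    have h2 : 0 < ‖z n i‖ ^ d := pow_pos (norm_pos_iff.mpr (hz0 n i)) d
    rw [← mul_div_assoc, div_lt_one h2] at h1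
    exact h1
  -- growth of the norms
  have hnorm1 : ∀ n i, ‖z (n + 1) i‖ = ‖z n i‖ ^ d := by
    intro n i
    have hpos' : 0 < ‖z n i ^ d‖ := norm_pos_iff.mpr (pow_ne_zero _ (hz0 n i))
    have h1 : ‖∑ β ∈ (P i).support, c i β * ∏ j, z n j ^ (β j)‖ < ‖z n i ^ d‖ := by
      obtain hT | hT := ((P i).support).eq_empty_or_nonempty
      · rw [hT]; simpa using hpos'
      obtain ⟨β, hβ, hle⟩ := IsUltrametricDist.exists_norm_finsetSum_le_of_nonempty hT
        (fun β => c i β * ∏ j, z n j ^ (β j))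
      refine hle.trans_lt ?_
      rw [norm_mul, norm_pow]
      exact hlt n i β hβ
    rw [hrec, norm_add_eq_left h1, norm_pow]
  have hnorm : ∀ n i, ‖z n i‖ = ‖z 0 i‖ ^ (d ^ n) := by
    intro n
    induction n with
    | zero => intro i; simp
    | succ n ih =>
      intro i
      rw [hnorm1, ih, ← pow_mul, pow_succ]
  have hsec : ∀ i, ∀ β ∈ (P i).support, ∏ j, ‖z 0 j‖ ^ (β j) < ‖z 0 i‖ ^ d := by
    intro i β hβ
    by_contra hcon
    rw [not_lt] at hcon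
    have h1 := hratio i β hβ 1
    obtain ⟨n₁, hn₁⟩ := eventually_atTop.mp (h1.eventually (gt_mem_nhds one_pos))
    have h2 := hn₁ (n₀ + n₁) (Nat.le_add_left _ _)
    have h3 : 0 < ‖z n₁ i‖ ^ d := pow_pos (norm_pos_iff.mpr (hz0 n₁ i)) d
    rw [one_mul] at h2
    have h4 : ‖∏ j, z n₁ j ^ (β j)‖ < ‖z n₁ i‖ ^ d := by
      rw [div_lt_one h3] at h2
      exact h2
    have h5 : ‖∏ j, z n₁ j ^ (β j)‖ = (∏ j, ‖z 0 j‖ ^ (β j)) ^ (d ^ n₁) :=
      norm_prod_orbit (fun j => hnorm n₁ j) β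
    rw [h5, hnorm, ← pow_mul, mul_comm (d ^ n₁) d, pow_mul] at h4
    exact absurd (pow_le_pow_left₀ (by positivity) hcon (d ^ n₁)) (not_le.mpr h4)
  let em : (ι →₀ ℕ) ↪ (ι → ℕ) := (Finsupp.equivFunOnFinite (α := ι) (M := ℕ)).toEmbedding
  obtain ⟨M, hM, hcore⟩ := coreT ℂ_[p] p (Fact.out) (norm_p_lt p) (W349.DM.cp_main p) ι d hd hpd
    (fun i => (P i).support.map em)
    (fun i β => c i (Finsupp.equivFunOnFinite.symm β)) z
    (by
      intro n i
      rw [hrec n i, Finset.sum_map]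
      congr 1
      refine Finset.sum_congr rfl fun β _ => ?_
      simp [em])
    (hz0 0)
    (by
      intro i β hβ
      rw [Finset.mem_map] at hβ
      obtain ⟨δ, hδ, rfl⟩ := hβ
      have h1 := hlt 0 i δ hδ
      have h2 := hsec i δ hδ
      rw [norm_prod] at h1
      simp only [norm_pow] at h1
      simpa [em] using And.intro h1 h2)
  refine ⟨M, hM, fun Q => ?_⟩
  apply EvPer.shift (m := n₀)
  have h1 := hcore (MvPolynomial.aeval (fun j => MvPolynomial.C ((l j)⁻¹) * MvPolynomial.X j) Q)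
  have h2 : ∀ n, MvPolynomial.eval (z n)
      (MvPolynomial.aeval (fun j => MvPolynomial.C ((l j)⁻¹) * MvPolynomial.X j) Q) =
      MvPolynomial.eval (y (n₀ + n)) Q := by
    intro n
    rw [eval_scale]
    congr 2
    funext j
    rw [hz]
    simp only
    rw [← mul_assoc, inv_mul_cancel₀ (hl0 j), one_mul]
  simp only [h2] at h1
  exact h1

/-- version over a field with an embedding into `ℂ_p`, asymptotic conditions. -/
theorem main1 {p : ℕ} [Fact p.Prime] {d : ℕ} (hd : 2 ≤ d) (hpd : p ∣ d) {L : Type} [Field L]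
    (τ : L →+* ℂ_[p]) (a : ι → L) (ha : ∀ i, a i ≠ 0) (P : ι → MvPolynomial ι L)
    (x : ℕ → ι → L)
    (hx : ∀ n i, x (n + 1) i = a i * x n i ^ d + MvPolynomial.eval (x n) (P i))
    (hx0 : ∀ᶠ n in atTop, ∀ i, x n i ≠ 0)
    (hdom : ∀ i, ∀ β ∈ (P i).support,
      Tendsto (fun n => ‖τ (∏ j, x n j ^ (β j))‖ / ‖τ (x n i)‖ ^ d) atTop (𝓝 0)) :
    ∃ M : ℕ, 1 ≤ M ∧ ∀ Q : MvPolynomial ι L, EvPer M {n | MvPolynomial.eval (x n) Q = 0} := by
  have hinj : Function.Injective τ := τ.injective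
  have hne : ∀ {t : L}, t ≠ 0 → τ t ≠ 0 := fun h h' => h (by rwa [map_eq_zero] at h')
  obtain ⟨M, hM, h⟩ := K2 p hd hpd (fun i => τ (a i)) (fun i => hne (ha i))
    (fun i => MvPolynomial.map τ (P i)) (fun n i => τ (x n i))
    (by
      intro n i
      rw [eval_hom, ← map_pow, ← map_mul, ← map_add, ← hx])
    (by
      filter_upwards [hx0] with n hn i
      exact hne (hn i))
    (by
      intro i β hβ
      rw [MvPolynomial.support_map_of_injective _ hinj] at hβ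
      have h1 := hdom i β hβ
      simpa [map_prod, map_pow] using h1)
  refine ⟨M, hM, fun Q => ?_⟩
  have h1 := h (MvPolynomial.map τ Q)
  simp only [eval_hom, map_eq_zero] at h1
  exact h1

/-- version over a field with an embedding into `ℂ_p`, conditions at time zero. -/
theorem main0 {p : ℕ} [Fact p.Prime] {d : ℕ} (hd : 2 ≤ d) (hpd : p ∣ d) {L : Type} [Field L]
    (τ : L →+* ℂ_[p]) (P : ι → MvPolynomial ι L) (x : ℕ → ι → L)
    (hx : ∀ n i, x (n + 1) i = x n i ^ d + MvPolynomial.eval (x n) (P i))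
    (hx0 : ∀ i, x 0 i ≠ 0)
    (hdom : ∀ i, ∀ β ∈ (P i).support,
      ‖τ (MvPolynomial.coeff β (P i))‖ * ∏ j, ‖τ (x 0 j)‖ ^ (β j) < ‖τ (x 0 i)‖ ^ d ∧
        ∏ j, ‖τ (x 0 j)‖ ^ (β j) < ‖τ (x 0 i)‖ ^ d) :
    ∃ M : ℕ, 1 ≤ M ∧ ∀ Q : MvPolynomial ι L, EvPer M {n | MvPolynomial.eval (x n) Q = 0} := by
  have hinj : Function.Injective τ := τ.injective
  have hne : ∀ {t : L}, t ≠ 0 → τ t ≠ 0 := fun h h' => h (by rwa [map_eq_zero] at h')
  obtain ⟨M, hM, h⟩ := K1 p hd hpd (fun i => MvPolynomial.map τ (P i)) (fun n i => τ (x n i))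
    (by
      intro n i
      rw [eval_hom, ← map_pow, ← map_add, ← hx])
    (fun i => hne (hx0 i))
    (by
      intro i β hβ
      rw [MvPolynomial.support_map_of_injective _ hinj] at hβ
      rw [MvPolynomial.coeff_map]
      exact hdom i β hβ)
  refine ⟨M, hM, fun Q => ?_⟩
  have h1 := h (MvPolynomial.map τ Q)
  simp only [eval_hom, map_eq_zero] at h1
  exact h1

end Pool.Agent.W600.DM
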