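import Pool.Agent.W600.DM.Stm

set_option autoImplicit false
set_option linter.unusedSectionVars false

open Filter Topology PowerSeries

namespace Pool.Agent.W600.DM

variable {K : Type} [NontriviallyNormedField K] [IsUltrametricDist K]

lemma Bd.nonneg {ρ B : ℝ} {f : PowerSeries (ℕ → K)} (h : Bd ρ B f) : 0 ≤ B := by
  have := h 0 0
  simp only [pow_zero, mul_one] at this
  exact (norm_nonneg _).trans this

lemma Bd.add {ρ B B' : ℝ} {f g : PowerSeries (ℕ → K)} (hf : Bd ρ B f) (hρ : 0 < ρ)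
    (hg : Bd ρ B' g) : Bd ρ (max B B') (f + g) := by
  intro k n
  rw [map_add, Pi.add_apply]
  have h1 : ‖coeff k f n + coeff k g n‖ ≤ max ‖coeff k f n‖ ‖coeff k g n‖ :=
    IsUltrametricDist.norm_add_le_max _ _
  have h2 : 0 ≤ ρ ^ k := (pow_pos hρ k).le
  calc ‖coeff k f n + coeff k g n‖ * ρ ^ k
      ≤ max ‖coeff k f n‖ ‖coeff k g n‖ * ρ ^ k := mul_le_mul_of_nonneg_right h1 h2
    _ = max (‖coeff k f n‖ * ρ ^ k) (‖coeff k g n‖ * ρ ^ k) := by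
        rw [max_mul_of_nonneg _ _ h2]
    _ ≤ max B B' := max_le_max (hf k n) (hg k n)

lemma Bd.mul {ρ B B' : ℝ} {f g : PowerSeries (ℕ → K)} (hf : Bd ρ B f) (hρ : 0 < ρ)
    (hg : Bd ρ B' g) : Bd ρ (B * B') (f * g) := by
  intro k n
  rw [coeff_mul]
  have hB := hf.nonneg
  have hB' := hg.nonneg
  have h2 : 0 < ρ ^ k := pow_pos hρ k
  rw [← le_div_iff₀ h2, Finset.sum_apply]
  refine IsUltrametricDist.norm_sum_le_of_forall_le_of_nonneg (by positivity) ?_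
  rintro ⟨a, b⟩ hab
  rw [Finset.HasAntidiagonal.mem_antidiagonal] at hab
  simp only at hab
  rw [le_div_iff₀ h2, Pi.mul_apply, norm_mul, ← hab, pow_add]
  calc ‖coeff a f n‖ * ‖coeff b g n‖ * (ρ ^ a * ρ ^ b)
      = (‖coeff a f n‖ * ρ ^ a) * (‖coeff b g n‖ * ρ ^ b) := by ring
    _ ≤ B * B' := mul_le_mul (hf a n) (hg b n) (by positivity) hB

lemma Bd.neg {ρ B : ℝ} {f : PowerSeries (ℕ → K)} (hf : Bd ρ B f) : Bd ρ B (-f) := by
  intro k n
  have := hf k n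
  simpa using this

lemma Bd.C {ρ B : ℝ} {g : ℕ → K} (h : ∀ n, ‖g n‖ ≤ B) : Bd ρ B (PowerSeries.C g) := by
  intro k n
  rw [coeff_C]
  have hB : 0 ≤ B := (norm_nonneg _).trans (h 0)
  split_ifs with hk
  · subst hk; simpa using h n
  · simpa using hB

lemma Bd.X {ρ : ℝ} (hρ : 0 < ρ) : Bd ρ ρ (PowerSeries.X : PowerSeries (ℕ → K)) := by
  intro k n
  rw [coeff_X]
  split_ifs with hk
  · subst hk; simp
  · simpa using hρ.le

lemma Bd.phi {ρ B : ℝ} {f : PowerSeries (ℕ → K)} (hf : Bd ρ B f) (hρ : 0 < ρ) (hρ1 : ρ ≤ 1) {d : ℕ}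
    (hd : 1 ≤ d) : Bd ρ B (Phi d f) := by
  intro k n
  rw [Phi, coeff_mk]
  split_ifs with hk
  · obtain ⟨l, rfl⟩ := hk
    rw [Nat.mul_div_cancel_left _ (by omega)]
    refine le_trans ?_ (hf l (n + 1))
    refine mul_le_mul_of_nonneg_left ?_ (norm_nonneg _)
    exact pow_le_pow_of_le_one hρ.le hρ1 (Nat.le_mul_of_pos_left l (by omega))
  · simpa using hf.nonneg

/-- series with coefficients in the algebra `A` and a geometric bound. -/
def Good (A : Subalgebra K (ℕ → K)) (ρ : ℝ) (hρ : 0 < ρ) : Subring (PowerSeries (ℕ → K)) where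
  carrier := {f | (∀ k, coeff k f ∈ A) ∧ ∃ B, Bd ρ B f}
  mul_mem' := by
    rintro f g ⟨hf, B, hB⟩ ⟨hg, B', hB'⟩
    refine ⟨fun k => ?_, B * B', hB.mul hρ hB'⟩
    rw [coeff_mul]
    exact A.sum_mem fun x _ => A.mul_mem (hf _) (hg _)
  one_mem' := by
    refine ⟨fun k => ?_, 1, ?_⟩
    · rw [coeff_one]
      split_ifs
      · exact A.one_mem
      · exact A.zero_mem
    · rw [← map_one (PowerSeries.C (R := ℕ → K))]
      exact Bd.C (fun n => by simp)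
  add_mem' := by
    rintro f g ⟨hf, B, hB⟩ ⟨hg, B', hB'⟩
    refine ⟨fun k => ?_, max B B', hB.add hρ hB'⟩
    rw [map_add]
    exact A.add_mem (hf _) (hg _)
  zero_mem' := ⟨fun k => by simp [A.zero_mem], 0, fun k n => by simp⟩
  neg_mem' := by
    rintro f ⟨hf, B, hB⟩
    exact ⟨fun k => by rw [map_neg]; exact A.neg_mem (hf _), B, hB.neg⟩

lemma mem_Good {A : Subalgebra K (ℕ → K)} {ρ : ℝ} {hρ : 0 < ρ} {f : PowerSeries (ℕ → K)} :
    f ∈ Good A ρ hρ ↔ (∀ k, coeff k f ∈ A) ∧ ∃ B, Bd ρ B f := Iff.rfl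

lemma C_mem_Good {A : Subalgebra K (ℕ → K)} {ρ : ℝ} {hρ : 0 < ρ} {g : ℕ → K} (hg : g ∈ A) {B : ℝ}
    (hB : ∀ n, ‖g n‖ ≤ B) : PowerSeries.C g ∈ Good A ρ hρ := by
  refine ⟨fun k => ?_, B, Bd.C hB⟩
  rw [coeff_C]
  split_ifs
  · exact hg
  · exact A.zero_mem

lemma X_mem_Good {A : Subalgebra K (ℕ → K)} {ρ : ℝ} {hρ : 0 < ρ} :
    (PowerSeries.X : PowerSeries (ℕ → K)) ∈ Good A ρ hρ := by
  refine ⟨fun k => ?_, ρ, Bd.X hρ⟩
  rw [coeff_X]
  split_ifs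
  · exact A.one_mem
  · exact A.zero_mem

lemma Phi_mem_Good {A : Subalgebra K (ℕ → K)} (hA : ∀ f ∈ A, (fun n => f (n + 1)) ∈ A) {ρ : ℝ}
    {hρ : 0 < ρ} (hρ1 : ρ ≤ 1) {d : ℕ} (hd : 1 ≤ d) {f : PowerSeries (ℕ → K)}
    (hf : f ∈ Good A ρ hρ) : Phi d f ∈ Good A ρ hρ := by
  obtain ⟨h1, B, hB⟩ := hf
  refine ⟨fun k => ?_, B, hB.phi hρ hρ1 hd⟩
  rw [Phi, coeff_mk]
  split_ifs
  · exact hA _ (h1 _)
  · exact A.zero_mem

variable [CompleteSpace K]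

lemma ev_C (s : K) (n : ℕ) (g : ℕ → K) : ev s n (PowerSeries.C g) = g n := by
  rw [ev, tsum_eq_single 0]
  · simp
  · intro k hk
    rw [coeff_C, if_neg hk]; simp

lemma ev_X (s : K) (n : ℕ) : ev s n (PowerSeries.X : PowerSeries (ℕ → K)) = s := by
  rw [ev, tsum_eq_single 1]
  · simp
  · intro k hk
    rw [coeff_X, if_neg hk]; simp

/-- evaluation as a ring homomorphism. -/
noncomputable def evHom (hEv : S_Ev) (A : Subalgebra K (ℕ → K)) (ρ : ℝ) (hρ : 0 < ρ) (s : K) (n : ℕ)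
    (hs : ‖s‖ < ρ) : Good A ρ hρ →+* K where
  toFun f := ev s n f.1
  map_one' := by
    have h := ev_C s n (1 : ℕ → K)
    rw [map_one] at h
    exact h
  map_mul' := by
    rintro ⟨f, hf, B, hB⟩ ⟨g, hg, B', hB'⟩
    exact (hEv K s n ρ B B' f g hρ hs hB hB').1
  map_zero' := by simp [ev]
  map_add' := by
    rintro ⟨f, hf, B, hB⟩ ⟨g, hg, B', hB'⟩
    exact (hEv K s n ρ B B' f g hρ hs hB hB').2

lemma evHom_apply (hEv : S_Ev) (A : Subalgebra K (ℕ → K)) (ρ : ℝ) (hρ : 0 < ρ) (s : K) (n : ℕ)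
    (hs : ‖s‖ < ρ) (f : Good A ρ hρ) : evHom hEv A ρ hρ s n hs f = ev s n f.1 := rfl

/-- tail estimate. -/
lemma ev_tail {ρ B : ℝ} (hρ : 0 < ρ) {f : PowerSeries (ℕ → K)} (hB : Bd ρ B f) {s : K} {n : ℕ}
    (hs : ‖s‖ < ρ) {k₀ : ℕ} (h0 : ∀ k < k₀, coeff k f n = 0) :
    ‖ev s n f - coeff k₀ f n * s ^ k₀‖ ≤ B * (‖s‖ / ρ) ^ (k₀ + 1) := by
  have hq0 : 0 ≤ ‖s‖ / ρ := by positivity
  have hq1 : ‖s‖ / ρ < 1 := by rw [div_lt_one hρ]; exact hs
  have hb : ∀ k, ‖coeff k f n * s ^ k‖ ≤ B * (‖s‖ / ρ) ^ k := by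
    intro k
    rw [norm_mul, norm_pow, div_pow, ← mul_div_assoc, le_div_iff₀ (pow_pos hρ k)]
    calc ‖coeff k f n‖ * ‖s‖ ^ k * ρ ^ k = (‖coeff k f n‖ * ρ ^ k) * ‖s‖ ^ k := by ring
      _ ≤ B * ‖s‖ ^ k := mul_le_mul_of_nonneg_right (hB k n) (by positivity)
  have hsum : Summable fun k => coeff k f n * s ^ k :=
    Summable.of_norm_bounded ((summable_geometric_of_lt_one hq0 hq1).mul_left B) hb
  have h1 := hsum.tsum_eq_add_tsum_ite k₀
  rw [ev, h1, add_sub_cancel_left]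
  refine IsUltrametricDist.norm_tsum_le_of_forall_le_of_nonneg
    (mul_nonneg hB.nonneg (by positivity)) ?_
  intro k
  split_ifs with hk
  · rw [norm_zero]; exact mul_nonneg hB.nonneg (by positivity)
  · rcases lt_or_gt_of_ne hk with h | h
    · rw [h0 k h, zero_mul, norm_zero]; exact mul_nonneg hB.nonneg (by positivity)
    · refine (hb k).trans (mul_le_mul_of_nonneg_left ?_ hB.nonneg)
      exact pow_le_pow_of_le_one hq0 hq1.le h

end Pool.Agent.W600.DM
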