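import Pool.Agent.W600.DM.Final

set_option autoImplicit false
set_option linter.unusedSectionVars false

open Filter Topology

namespace Pool.Agent.W600.DM

variable {ι : Type} [Fintype ι]

/-- leading coefficients of norm one, conditions at time zero. -/
theorem K1a (p : ℕ) [Fact p.Prime] {d : ℕ} (hd : 2 ≤ d) (hpd : p ∣ d) (a : ι → ℂ_[p])
    (ha : ∀ i, ‖a i‖ = 1) (P : ι → MvPolynomial ι ℂ_[p]) (y : ℕ → ι → ℂ_[p])
    (hy : ∀ n i, y (n + 1) i = a i * y n i ^ d + MvPolynomial.eval (y n) (P i))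
    (hy0 : ∀ i, y 0 i ≠ 0)
    (hdom : ∀ i, ∀ β ∈ (P i).support,
      ‖MvPolynomial.coeff β (P i)‖ * ∏ j, ‖y 0 j‖ ^ (β j) < ‖y 0 i‖ ^ d ∧
        ∏ j, ‖y 0 j‖ ^ (β j) < ‖y 0 i‖ ^ d) :
    ∃ M : ℕ, 1 ≤ M ∧ ∀ Q : MvPolynomial ι ℂ_[p], EvPer M {n | MvPolynomial.eval (y n) Q = 0} := by
  classical
  have ha0 : ∀ i, a i ≠ 0 := fun i h => by
    have := ha i
    rw [h, norm_zero] at this
    exact zero_ne_one this
  have hnorm : ∀ n i, ‖y n i‖ = ‖y 0 i‖ ^ (d ^ n) := by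
    intro n
    induction n with
    | zero => intro i; simp
    | succ n ih =>
      intro i
      have hpos : 0 < ‖y 0 i‖ := norm_pos_iff.mpr (hy0 i)
      have hm : 1 ≤ d ^ n := Nat.one_le_pow _ _ (by omega)
      have h1 : ‖MvPolynomial.eval (y n) (P i)‖ < ‖a i * y n i ^ d‖ := by
        have hpos' : 0 < ‖a i * y n i ^ d‖ := by
          rw [norm_mul, ha, one_mul, norm_pow, ih]; positivity
        rw [MvPolynomial.eval_eq']
        obtain hT | hT := ((P i).support).eq_empty_or_nonempty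
        · rw [hT]; simpa using hpos'
        obtain ⟨β, hβ, hle⟩ := IsUltrametricDist.exists_norm_finsetSum_le_of_nonempty hT
          (fun β => MvPolynomial.coeff β (P i) * ∏ j, y n j ^ (β j))
        refine hle.trans_lt ?_
        rw [norm_mul, norm_prod_orbit ih, norm_mul, ha, one_mul, norm_pow, ih, ← pow_mul,
          mul_comm (d ^ n) d, pow_mul]
        exact pow_lt_aux (Finset.prod_nonneg fun j _ => by positivity) (norm_nonneg _)
          (hdom i β hβ).2 (hdom i β hβ).1 hm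
      rw [hy, norm_add_eq_left h1, norm_mul, ha, one_mul, norm_pow, ih, ← pow_mul, pow_succ]
  have hne : ∀ n i, y n i ≠ 0 := by
    intro n i
    rw [← norm_pos_iff, hnorm]
    have := norm_pos_iff.mpr (hy0 i)
    positivity
  refine K2 p hd hpd a ha0 P y hy (Eventually.of_forall hne) ?_
  intro i β hβ
  have hpos : 0 < ‖y 0 i‖ ^ d := pow_pos (norm_pos_iff.mpr (hy0 i)) d
  have h1 : ∀ n, ‖∏ j, y n j ^ (β j)‖ / ‖y n i‖ ^ d =
      ((∏ j, ‖y 0 j‖ ^ (β j)) / ‖y 0 i‖ ^ d) ^ (d ^ n) := by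
    intro n
    rw [norm_prod_orbit (hnorm n), hnorm n i, ← pow_mul, mul_comm (d ^ n) d, pow_mul, div_pow]
  simp only [h1]
  refine tendsto_pow_pow (by positivity) ?_ hd
  rw [div_lt_one hpos]
  exact (hdom i β hβ).2

/-- version over a field with an embedding into `ℂ_p`. -/
theorem main0a {p : ℕ} [Fact p.Prime] {d : ℕ} (hd : 2 ≤ d) (hpd : p ∣ d) {L : Type} [Field L]
    (τ : L →+* ℂ_[p]) (a : ι → L) (ha : ∀ i, ‖τ (a i)‖ = 1) (P : ι → MvPolynomial ι L)
    (x : ℕ → ι → L)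
    (hx : ∀ n i, x (n + 1) i = a i * x n i ^ d + MvPolynomial.eval (x n) (P i))
    (hx0 : ∀ i, x 0 i ≠ 0)
    (hdom : ∀ i, ∀ β ∈ (P i).support,
      ‖τ (MvPolynomial.coeff β (P i))‖ * ∏ j, ‖τ (x 0 j)‖ ^ (β j) < ‖τ (x 0 i)‖ ^ d ∧
        ∏ j, ‖τ (x 0 j)‖ ^ (β j) < ‖τ (x 0 i)‖ ^ d) :
    ∃ M : ℕ, 1 ≤ M ∧ ∀ Q : MvPolynomial ι L, EvPer M {n | MvPolynomial.eval (x n) Q = 0} := by
  have hinj : Function.Injective τ := τ.injective
  have hne : ∀ {t : L}, t ≠ 0 → τ t ≠ 0 := fun h h' => h (by rwa [map_eq_zero] at h')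
  obtain ⟨M, hM, h⟩ := K1a p hd hpd (fun i => τ (a i)) ha (fun i => MvPolynomial.map τ (P i))
    (fun n i => τ (x n i))
    (by
      intro n i
      rw [eval_hom, ← map_pow, ← map_mul, ← map_add, ← hx])
    (fun i => hne (hx0 i))
    (by
      intro i β hβ
      rw [MvPolynomial.support_map_of_injective _ hinj] at hβ
      rw [MvPolynomial.coeff_map]
      exact hdom i β hβ)
  refine ⟨M, hM, fun Q => ?_⟩
  have h1 := h (MvPolynomial.map τ Q)
  simp only [eval_hom, map_eq_zero] at h1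
  exact h1

end Pool.Agent.W600.DM
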