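import Pool.Agent.W600.DM.Good

set_option autoImplicit false
set_option linter.unusedSectionVars false

open Filter Topology

namespace Pool.Agent.W600.DM

lemma exists_ub {α : Type} (S : Finset α) (f : α → ℝ) : ∃ C : ℝ, 0 ≤ C ∧ ∀ s ∈ S, f s ≤ C := by
  classical
  induction S using Finset.induction_on with
  | empty => exact ⟨0, le_rfl, by simp⟩
  | insert a S ha ih =>
    obtain ⟨C, h0, hC⟩ := ih
    refine ⟨max C (f a), le_max_of_le_left h0, ?_⟩
    intro s hs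
    rcases Finset.mem_insert.mp hs with rfl | h
    · exact le_max_right _ _
    · exact (hC s h).trans (le_max_left _ _)

lemma exists_lt_one {α : Type} (S : Finset α) (f : α → ℝ) (h : ∀ s ∈ S, f s < 1) :
    ∃ κ : ℝ, 0 ≤ κ ∧ κ < 1 ∧ ∀ s ∈ S, f s ≤ κ := by
  classical
  induction S using Finset.induction_on with
  | empty => exact ⟨0, le_rfl, zero_lt_one, by simp⟩
  | insert a S ha ih =>
    obtain ⟨κ, h0, h1, hC⟩ := ih (fun s hs => h s (Finset.mem_insert_of_mem hs))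
    refine ⟨max κ (f a), le_max_of_le_left h0, max_lt h1 (h a (Finset.mem_insert_self _ _)), ?_⟩
    intro s hs
    rcases Finset.mem_insert.mp hs with rfl | h
    · exact le_max_right _ _
    · exact (hC s h).trans (le_max_left _ _)

variable {K : Type} [NontriviallyNormedField K] [IsUltrametricDist K]

lemma norm_add_eq_left {a b : K} (h : ‖b‖ < ‖a‖) : ‖a + b‖ = ‖a‖ := by
  rw [IsUltrametricDist.norm_add_eq_max_of_norm_ne_norm h.ne', max_eq_left h.le]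

variable {ι : Type} [Fintype ι] {d : ℕ} {T : ι → Finset (ι → ℕ)} {c : ι → (ι → ℕ) → K}
  {x : ℕ → ι → K}

lemma pow_lt_aux {a b C : ℝ} (ha : 0 ≤ a) (hC : 0 ≤ C) (hab : a < b) (hCab : C * a < b) {m : ℕ}
    (hm : 1 ≤ m) : C * a ^ m < b ^ m := by
  obtain ⟨k, rfl⟩ := Nat.exists_eq_add_of_le' hm
  have hb : 0 < b := ha.trans_lt hab
  rw [pow_succ', pow_succ', ← mul_assoc]
  have h1 : a ^ k ≤ b ^ k := pow_le_pow_left₀ ha hab.le k
  calc C * a * a ^ k ≤ C * a * b ^ k := mul_le_mul_of_nonneg_left h1 (by positivity)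
    _ < b * b ^ k := mul_lt_mul_of_pos_right hCab (by positivity)

lemma norm_prod_orbit {n : ℕ} {m : ℕ} (hn : ∀ i, ‖x n i‖ = ‖x 0 i‖ ^ m) (β : ι → ℕ) :
    ‖∏ j, x n j ^ β j‖ = (∏ j, ‖x 0 j‖ ^ β j) ^ m := by
  rw [norm_prod, ← Finset.prod_pow]
  refine Finset.prod_congr rfl fun j _ => ?_
  rw [norm_pow, hn, ← pow_mul, ← pow_mul, mul_comm]

lemma orbit_norm (hd : 2 ≤ d)
    (hx : ∀ n i, x (n + 1) i = x n i ^ d + ∑ β ∈ T i, c i β * ∏ j, x n j ^ (β j))
    (hx0 : ∀ i, x 0 i ≠ 0)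
    (hdom : ∀ i, ∀ β ∈ T i, ‖c i β‖ * ∏ j, ‖x 0 j‖ ^ (β j) < ‖x 0 i‖ ^ d ∧
        ∏ j, ‖x 0 j‖ ^ (β j) < ‖x 0 i‖ ^ d) (n : ℕ) : ∀ i, ‖x n i‖ = ‖x 0 i‖ ^ (d ^ n) := by
  induction n with
  | zero => intro i; simp
  | succ n ih =>
    intro i
    have hpos : 0 < ‖x 0 i‖ := norm_pos_iff.mpr (hx0 i)
    have hm : 1 ≤ d ^ n := Nat.one_le_pow _ _ (by omega)
    have h1 : ‖∑ β ∈ T i, c i β * ∏ j, x n j ^ (β j)‖ < ‖x n i ^ d‖ := by
      have hpos' : 0 < ‖x n i ^ d‖ := by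
        rw [norm_pow, ih]; positivity
      obtain hT | hT := (T i).eq_empty_or_nonempty
      · rw [hT]; simpa using hpos'
      obtain ⟨β, hβ, hle⟩ := IsUltrametricDist.exists_norm_finsetSum_le_of_nonempty hT
        (fun β => c i β * ∏ j, x n j ^ (β j))
      refine hle.trans_lt ?_
      rw [norm_mul, norm_prod_orbit ih, norm_pow, ih, ← pow_mul, mul_comm (d ^ n) d, pow_mul]
      exact pow_lt_aux (Finset.prod_nonneg fun j _ => by positivity) (norm_nonneg _)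
        (hdom i β hβ).2 (hdom i β hβ).1 hm
    rw [hx, norm_add_eq_left h1, norm_pow, ih, ← pow_mul, pow_succ]

end Pool.Agent.W600.DM
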