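import Pool.Agent.W600.DM.Dens

set_option autoImplicit false

open Filter Topology Finset

namespace Pool.Agent.W600.DM.Dens

/-! ### primitive vectors -/

lemma sum_inv_sq (H : ℕ) (hH : 2 ≤ H) :
    ∑ q ∈ Finset.Icc 2 H, (1 : ℝ) / (q : ℝ) ^ 2 ≤ 3 / 4 - 1 / H := by
  induction H, hH using Nat.le_induction with
  | base => norm_num
  | succ n hn ih =>
    rw [Finset.sum_Icc_succ_top (by omega)]
    have hn0 : (0 : ℝ) < n := by positivity
    have h1 : (1 : ℝ) / ((n + 1 : ℕ) : ℝ) ^ 2 ≤ 1 / n - 1 / ((n + 1 : ℕ) : ℝ) := by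
      push_cast
      rw [div_sub_div _ _ hn0.ne' (by positivity), div_le_div_iff₀ (by positivity) (by positivity)]
      nlinarith
    linarith

lemma coprime_pairs (H : ℕ) : (H : ℝ) ^ 2 / 4 ≤
    ((((Finset.Ioc 0 H) ×ˢ (Finset.Ioc 0 H)).filter
      (fun x : ℕ × ℕ => x.1.Coprime x.2)).card : ℝ) := by
  classical
  rcases Nat.lt_or_ge H 2 with h | h
  · interval_cases H
    · simp
    · have : (((Finset.Ioc 0 1) ×ˢ (Finset.Ioc 0 1)).filter
        (fun x : ℕ × ℕ => x.1.Coprime x.2)).card = 1 := by decide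
      rw [this]; norm_num
  set A := (Finset.Ioc 0 H) ×ˢ (Finset.Ioc 0 H) with hA
  have h1 : (A.filter (fun x : ℕ × ℕ => x.1.Coprime x.2)).card +
      (A.filter (fun x : ℕ × ℕ => ¬ x.1.Coprime x.2)).card = A.card :=
    Finset.card_filter_add_card_filter_not _
  have h2 : A.filter (fun x : ℕ × ℕ => ¬ x.1.Coprime x.2) ⊆
      (Finset.Icc 2 H).biUnion (fun q => ((Finset.Ioc 0 H).filter (fun a => q ∣ a)) ×ˢ
        ((Finset.Ioc 0 H).filter (fun a => q ∣ a))) := by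
    rintro ⟨a, b⟩ hx
    simp only [hA, Finset.mem_filter, Finset.mem_product, Finset.mem_Ioc] at hx
    obtain ⟨⟨⟨ha0, ha⟩, hb0, hb⟩, hab⟩ := hx
    obtain ⟨q, hq, hqa, hqb⟩ := Nat.Prime.not_coprime_iff_dvd.mp hab
    simp only [Finset.mem_biUnion, Finset.mem_product, Finset.mem_filter, Finset.mem_Ioc,
      Finset.mem_Icc]
    exact ⟨q, ⟨hq.two_le, (Nat.le_of_dvd ha0 hqa).trans ha⟩, ⟨⟨ha0, ha⟩, hqa⟩, ⟨hb0, hb⟩, hqb⟩
  have h3 : ((A.filter (fun x : ℕ × ℕ => ¬ x.1.Coprime x.2)).card : ℝ) ≤ 3 / 4 * (H : ℝ) ^ 2 := by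
    calc ((A.filter (fun x : ℕ × ℕ => ¬ x.1.Coprime x.2)).card : ℝ)
        ≤ ((∑ q ∈ Finset.Icc 2 H, (H / q) * (H / q) : ℕ) : ℝ) := by
          norm_cast
          refine (Finset.card_le_card h2).trans (Finset.card_biUnion_le.trans ?_)
          refine Finset.sum_le_sum fun q _ => ?_
          rw [Finset.card_product, Nat.Ioc_filter_dvd_card_eq_div]
      _ ≤ ∑ q ∈ Finset.Icc 2 H, (H : ℝ) ^ 2 * ((1 : ℝ) / (q : ℝ) ^ 2) := by
          push_cast
          refine Finset.sum_le_sum fun q hq => ?_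
          have hq0 : (0 : ℝ) < q := by
            have := (Finset.mem_Icc.mp hq).1
            positivity
          have h4 : ((H / q : ℕ) : ℝ) ≤ (H : ℝ) / q := Nat.cast_div_le
          calc ((H / q : ℕ) : ℝ) * ((H / q : ℕ) : ℝ) ≤ (H : ℝ) / q * ((H : ℝ) / q) :=
                mul_le_mul h4 h4 (by positivity) (by positivity)
            _ = (H : ℝ) ^ 2 * ((1 : ℝ) / (q : ℝ) ^ 2) := by field_simp
      _ = (H : ℝ) ^ 2 * ∑ q ∈ Finset.Icc 2 H, (1 : ℝ) / (q : ℝ) ^ 2 := by rw [Finset.mul_sum]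
      _ ≤ (H : ℝ) ^ 2 * (3 / 4) := by
          refine mul_le_mul_of_nonneg_left ?_ (by positivity)
          have := sum_inv_sq H h
          have h5 : (0 : ℝ) ≤ 1 / H := by positivity
          linarith
      _ = 3 / 4 * (H : ℝ) ^ 2 := by ring
  have h4 : (A.card : ℝ) = (H : ℝ) ^ 2 := by
    rw [hA, Finset.card_product, Nat.card_Ioc]; push_cast; simp; ring
  have h5 : ((A.filter (fun x : ℕ × ℕ => x.1.Coprime x.2)).card : ℝ) +
      ((A.filter (fun x : ℕ × ℕ => ¬ x.1.Coprime x.2)).card : ℝ) = (A.card : ℝ) := by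
    exact_mod_cast h1
  linarith

/-- primitive vectors of the box. -/
noncomputable def Pr (n H : ℕ) : Finset (Fin n → ℤ) :=
  (Bx n H).filter (fun α => Finset.univ.gcd α = 1)

lemma card_Pr (m H : ℕ) (hH : 1 ≤ H) : ((2 * H + 1 : ℝ)) ^ (m + 2) / 36 ≤ ((Pr (m + 2) H).card : ℝ) := by
  classical
  set A := ((Finset.Ioc 0 H) ×ˢ (Finset.Ioc 0 H)).filter
      (fun x : ℕ × ℕ => x.1.Coprime x.2) with hA
  let f : (ℕ × ℕ) × (Fin m → ℤ) → (Fin (m + 2) → ℤ) := fun x =>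
    Fin.cons (x.1.1 : ℤ) (Fin.cons (x.1.2 : ℤ) x.2)
  have hf : Function.Injective f := by
    rintro ⟨⟨a, b⟩, r⟩ ⟨⟨a', b'⟩, r'⟩ h
    simp only [f] at h
    obtain ⟨h1, h2⟩ := Fin.cons_injective2 h
    obtain ⟨h3, h4⟩ := Fin.cons_injective2 h2
    simp only [Nat.cast_inj] at h1 h3
    rw [h1, h3, h4]
  have h1 : (A ×ˢ Bx m H).image f ⊆ Pr (m + 2) H := by
    intro y hy
    rw [Finset.mem_image] at hy
    obtain ⟨⟨⟨a, b⟩, r⟩, hx, rfl⟩ := hy
    simp only [hA, Finset.mem_product, Finset.mem_filter, Finset.mem_Ioc] at hx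
    obtain ⟨⟨⟨⟨ha0, ha⟩, hb0, hb⟩, hab⟩, hr⟩ := hx
    rw [Pr, Finset.mem_filter, mem_Bx]
    refine ⟨?_, ?_⟩
    · intro j
      refine Fin.cases ?_ (fun j => ?_) j
      · simp only [f, Fin.cons_zero, Nat.abs_cast]; exact_mod_cast ha
      · refine Fin.cases ?_ (fun j => ?_) j
        · simp only [f, Fin.cons_succ, Fin.cons_zero, Nat.abs_cast]; exact_mod_cast hb
        · simp only [f, Fin.cons_succ]; exact mem_Bx.mp hr j
    · have h2 : (Finset.univ.gcd (f ((a, b), r))) ∣ (a : ℤ) := Finset.gcd_dvd (Finset.mem_univ 0)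
      have h3 : (Finset.univ.gcd (f ((a, b), r))) ∣ (b : ℤ) := Finset.gcd_dvd (Finset.mem_univ 1)
      have h4 : (Finset.univ.gcd (f ((a, b), r))) ∣ 1 := by
        have h5 := Int.dvd_coe_gcd h2 h3
        rwa [Int.gcd_natCast_natCast, hab, Nat.cast_one] at h5
      have h5 : normalize (Finset.univ.gcd (f ((a, b), r))) = Finset.univ.gcd (f ((a, b), r)) :=
        Finset.normalize_gcd
      rw [← h5]
      exact normalize_eq_one.mpr (isUnit_of_dvd_one h4)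
  have h2 : A.card * (2 * H + 1) ^ m ≤ (Pr (m + 2) H).card := by
    have h3 := Finset.card_le_card h1
    rw [Finset.card_image_of_injective _ hf, Finset.card_product, card_Bx] at h3
    exact h3
  have h3 := coprime_pairs H
  have hH' : (1 : ℝ) ≤ H := by exact_mod_cast hH
  have h4 : ((2 * H + 1 : ℝ)) ^ 2 ≤ 9 * (H : ℝ) ^ 2 := by nlinarith
  calc ((2 * H + 1 : ℝ)) ^ (m + 2) / 36 = ((2 * H + 1 : ℝ)) ^ 2 / 36 * (2 * H + 1 : ℝ) ^ m := by
        rw [pow_add]; ring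
    _ ≤ (H : ℝ) ^ 2 / 4 * (2 * H + 1 : ℝ) ^ m := by
        refine mul_le_mul_of_nonneg_right ?_ (by positivity)
        linarith
    _ ≤ (A.card : ℝ) * (2 * H + 1 : ℝ) ^ m := mul_le_mul_of_nonneg_right h3 (by positivity)
    _ ≤ ((Pr (m + 2) H).card : ℝ) := by exact_mod_cast h2

end Pool.Agent.W600.DM.Dens
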