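import Pool.Agent.W600.DM.Lead
import Pool.Agent.W600.DM.Dens2

set_option autoImplicit false
set_option linter.unusedSectionVars false

open MvPolynomial

namespace Pool.Agent.W600.DM

/-- The system `(a_0 X_0^d, a_1 X_1^d + X_0 Q_1, ..., a_N X_N^d + X_0 Q_N)`. -/
noncomputable def sys {R : Type} [CommRing R] {N : ℕ} (d : ℕ) (a : Fin (N + 1) → R)
    (Q : Fin N → MvPolynomial (Fin (N + 1)) R) : Fin (N + 1) → MvPolynomial (Fin (N + 1)) R :=
  Fin.cons (C (a 0) * X 0 ^ d) (fun i => C (a i.succ) * X i.succ ^ d + X 0 * Q i)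

/-- The dynamical Mordell-Lang property of the system of polynomials `F` at the point `α`: for
every set `V` of complex polynomials the set of the `n` such that the `n`-th iterate of `α` is a
common zero of `V` is a finite union of arithmetic progressions. -/
def DMLAt {m : ℕ} (F : Fin m → MvPolynomial (Fin m) ℂ) (α : Fin m → ℂ) : Prop :=
  ∀ V : Set (MvPolynomial (Fin m) ℂ), ∃ T : Finset (ℕ × ℕ),
    {n : ℕ | ∀ g ∈ V, eval ((fun z : Fin m → ℂ => fun i => eval z (F i))^[n] α) g = 0} =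
      {n : ℕ | ∃ t ∈ T, ∃ k : ℕ, n = t.1 + t.2 * k}

/-- **general version at a point dominated at time zero.** -/
theorem dmlAt {p : ℕ} [Fact p.Prime] {m d : ℕ} (hd : 2 ≤ d) (hpd : p ∣ d) {L : Type} [Field L]
    (σ : L →+* ℂ) (τ : L →+* ℂ_[p]) (a : Fin m → L) (ha : ∀ j, ‖τ (a j)‖ = 1)
    (P : Fin m → MvPolynomial (Fin m) L) (hP1 : ∀ j β, ‖τ (coeff β (P j))‖ ≤ 1)
    (α : Fin m → L) (hα : ∀ j, α j ≠ 0)
    (hα1 : ∀ j, ∀ β ∈ (P j).support, ∏ k, ‖τ (α k)‖ ^ (β k) < ‖τ (α j)‖ ^ d) :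
    DMLAt (fun j => map σ (C (a j) * X j ^ d + P j)) (fun j => σ (α j)) := by
  classical
  let x : ℕ → Fin m → L := fun n =>
    (fun z : Fin m → L => fun j => eval z (C (a j) * X j ^ d + P j))^[n] α
  have hx : ∀ n j, x (n + 1) j = a j * x n j ^ d + eval (x n) (P j) := by
    intro n j
    simp only [x]
    rw [Function.iterate_succ_apply']
    simp
  obtain ⟨M, hM, h⟩ := main0a hd hpd τ a ha P x hx hα (by
    intro j β hβ
    have h1 := hα1 j β hβ
    refine ⟨lt_of_le_of_lt ?_ h1, h1⟩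
    exact mul_le_of_le_one_left (Finset.prod_nonneg fun k _ => by positivity) (hP1 j β))
  have horb : ∀ n, (fun z : Fin m → ℂ => fun i => eval z (map σ (C (a i) * X i ^ d + P i)))^[n]
      (fun j => σ (α j)) = fun j => σ (x n j) := by
    intro n
    induction n with
    | zero => rfl
    | succ n ih =>
      rw [Function.iterate_succ_apply', ih]
      funext j
      rw [eval_hom]
      simp only [x]
      rw [Function.iterate_succ_apply']
  intro V
  obtain ⟨T, hT⟩ := all_families σ hM h V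
  refine ⟨T, ?_⟩
  rw [← hT]
  ext n
  simp only [horb]

lemma padic_int_lt (p : ℕ) [Fact p.Prime] (z : ℤ) : ‖(z : ℚ_[p])‖ < 1 ↔ (p : ℤ) ∣ z := by
  rw [← PadicInt.norm_int_lt_one_iff_dvd, PadicInt.norm_def, PadicInt.coe_intCast]

/-- rational points. -/
theorem proj_int {p : ℕ} (hp : p.Prime) {N d : ℕ} (hd : 2 ≤ d) (hpd : p ∣ d)
    (a : Fin (N + 1) → ℤ) (ha : ∀ j, ¬ (p : ℤ) ∣ a j)
    (Q : Fin N → MvPolynomial (Fin (N + 1)) ℤ)
    (α : Fin (N + 1) → ℤ) (h0 : α 0 ≠ 0) (h1 : (p : ℤ) ∣ α 0)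
    (h2 : ∀ i : Fin N, ¬ (p : ℤ) ∣ α i.succ) :
    DMLAt (fun j => map (Int.castRingHom ℂ) (sys d a Q j)) (fun j => (α j : ℂ)) := by
  have hfact := Fact.mk hp
  let σ : ℚ →+* ℂ := Rat.castHom ℂ
  let τ : ℚ →+* ℂ_[p] := (algebraMap ℚ_[p] ℂ_[p]).comp (Rat.castHom ℚ_[p])
  have hτ : ∀ z : ℤ, ‖τ (z : ℚ)‖ = ‖(z : ℚ_[p])‖ := by
    intro z
    have h3 : τ (z : ℚ) = (((z : ℚ_[p]) : ℂ_[p])) := by
      simp only [τ, map_intCast]
      rw [← map_intCast (algebraMap ℚ_[p] ℂ_[p])]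
      rfl
    rw [h3, PadicComplex.norm_extends']
  have hle : ∀ z : ℤ, ‖τ (z : ℚ)‖ ≤ 1 := fun z => by rw [hτ]; exact Padic.norm_int_le_one z
  have hlt : ‖τ (α 0 : ℚ)‖ < 1 := by
    rw [hτ]; exact (padic_int_lt p (α 0)).mpr h1
  have heq : ∀ z : ℤ, ¬ (p : ℤ) ∣ z → ‖τ (z : ℚ)‖ = 1 := by
    intro z hz
    refine le_antisymm (hle _) ?_
    rw [hτ]
    by_contra hcon
    rw [not_le] at hcon
    exact hz ((padic_int_lt p _).mp hcon)
  let P : Fin (N + 1) → MvPolynomial (Fin (N + 1)) ℚ :=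
    Fin.cons 0 (fun i => X 0 * map (Int.castRingHom ℚ) (Q i))
  have hPs : ∀ i : Fin N, P i.succ = X 0 * map (Int.castRingHom ℚ) (Q i) := fun i => by simp [P]
  have key := dmlAt (p := p) hd hpd σ τ (fun j => (a j : ℚ)) (fun j => heq _ (ha j)) P
    (by
      intro j
      refine Fin.cases ?_ (fun i => ?_) j
      · intro β
        simp [P]
      · intro β
        rw [hPs, coeff_X_mul']
        split_ifs
        · rw [coeff_map]; exact hle _
        · simp)
    (fun j => (α j : ℚ))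
    (by
      intro j
      refine Fin.cases ?_ (fun i => ?_) j
      · exact_mod_cast h0
      · intro h
        apply h2 i
        have h' : α i.succ = 0 := by exact_mod_cast h
        rw [h']
        exact dvd_zero _)
    (by
      intro j
      refine Fin.cases ?_ (fun i => ?_) j
      · intro β hβ
        simp [P] at hβ
      · intro β hβ
        rw [hPs, support_X_mul, Finset.mem_map] at hβ
        obtain ⟨γ, hγ, rfl⟩ := hβ
        have h1' : (addLeftEmbedding (Finsupp.single (0 : Fin (N + 1)) 1)) γ =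
          Finsupp.single 0 1 + γ := rfl
        rw [h1', heq _ (h2 i), one_pow]
        have h3 : ∏ k, ‖τ (α k : ℚ)‖ ^ ((Finsupp.single (0 : Fin (N + 1)) 1 + γ :
            Fin (N + 1) →₀ ℕ) k) = ‖τ (α 0 : ℚ)‖ * ∏ k, ‖τ (α k : ℚ)‖ ^ (γ k) := by
          simp only [Finsupp.add_apply, pow_add, Finset.prod_mul_distrib]
          congr 1
          rw [Finset.prod_eq_single 0]
          · simp
          · intro k _ hk
            rw [Finsupp.single_apply, if_neg (Ne.symm hk), pow_zero]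
          · intro h; exact absurd (Finset.mem_univ _) h
        rw [h3]
        calc ‖τ (α 0 : ℚ)‖ * ∏ k, ‖τ (α k : ℚ)‖ ^ (γ k) ≤ ‖τ (α 0 : ℚ)‖ * 1 := by
              refine mul_le_mul_of_nonneg_left ?_ (norm_nonneg _)
              exact Finset.prod_le_one (fun k _ => by positivity)
                (fun k _ => pow_le_one₀ (norm_nonneg _) (hle _))
          _ < 1 := by rwa [mul_one])
  have e1 : (fun j => map (Int.castRingHom ℂ) (sys d a Q j)) =
      fun j => map σ (C ((a j : ℚ)) * X j ^ d + P j) := by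
    funext j
    have h3 : C ((a j : ℚ)) * X j ^ d + P j = map (Int.castRingHom ℚ) (sys d a Q j) := by
      refine Fin.cases ?_ (fun i => ?_) j
      · simp [sys, P]
      · simp [sys, P]
    rw [h3, MvPolynomial.map_map]
    congr 1
  have e2 : (fun j => (α j : ℂ)) = fun j => σ ((α j : ℚ)) := by
    funext j
    simp [σ]
  rw [e1, e2]
  exact key

/-- **almost all rational points.** -/
theorem proj_density (N : ℕ) (hN : 1 ≤ N) (a : Fin (N + 1) → ℤ) (ha : ∀ j, a j ≠ 0) (ε : ℝ)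
    (hε : 0 < ε) :
    ∃ D : ℕ, 1 ≤ D ∧ ∀ d : ℕ, 2 ≤ d → D ∣ d → ∀ Q : Fin N → MvPolynomial (Fin (N + 1)) ℤ,
      (∀ i, (Q i).IsHomogeneous (d - 1)) → ∃ H₀ : ℕ, ∀ H : ℕ, H₀ ≤ H →
        (({α : Fin (N + 1) → ℤ | (∀ j, |α j| ≤ (H : ℤ)) ∧ Finset.univ.gcd α = 1 ∧
          ¬ DMLAt (fun j => map (Int.castRingHom ℂ) (sys d a Q j)) (fun j => (α j : ℂ))} :
            Set (Fin (N + 1) → ℤ)).ncard : ℝ) ≤
          ε * (({α : Fin (N + 1) → ℤ | (∀ j, |α j| ≤ (H : ℤ)) ∧ Finset.univ.gcd α = 1} :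
            Set (Fin (N + 1) → ℤ)).ncard : ℝ) := by
  classical
  obtain ⟨S, hS, H₀, hH₀⟩ := Dens.dens N hN
    (Finset.univ.biUnion fun j => (a j).natAbs.primeFactors) ε hε
  refine ⟨∏ p ∈ S, p, Finset.one_le_prod' fun p hp => (hS p hp).1.one_le, ?_⟩
  intro d hd hD Q _
  refine ⟨H₀, fun H hH => ?_⟩
  have e1 : ({α : Fin (N + 1) → ℤ | (∀ j, |α j| ≤ (H : ℤ)) ∧ Finset.univ.gcd α = 1} :
      Set (Fin (N + 1) → ℤ)) = ((Dens.Pr (N + 1) H : Finset (Fin (N + 1) → ℤ)) : Set _) := by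
    ext α
    simp [Dens.Pr, Dens.mem_Bx]
  have e2 : ({α : Fin (N + 1) → ℤ | (∀ j, |α j| ≤ (H : ℤ)) ∧ Finset.univ.gcd α = 1 ∧
          ¬ DMLAt (fun j => map (Int.castRingHom ℂ) (sys d a Q j)) (fun j => (α j : ℂ))} :
            Set (Fin (N + 1) → ℤ)) = (((Dens.Pr (N + 1) H).filter (fun α =>
          ¬ DMLAt (fun j => map (Int.castRingHom ℂ) (sys d a Q j)) (fun j => (α j : ℂ))) :
            Finset (Fin (N + 1) → ℤ)) : Set _) := by
    ext α
    simp [Dens.Pr, Dens.mem_Bx, and_assoc]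
  rw [e1, e2, Set.ncard_coe_finset, Set.ncard_coe_finset]
  refine hH₀ H hH _ fun α hα => ?_
  rw [Finset.mem_filter, Dens.Pr, Finset.mem_filter] at hα
  refine ⟨hα.1.1, ?_⟩
  by_contra hbad
  apply hα.2
  rw [Dens.Bad, not_or] at hbad
  obtain ⟨h0, hb⟩ := hbad
  push Not at hb
  obtain ⟨p, hp, h1, h2⟩ := hb
  refine proj_int (hS p hp).1 hd ((Finset.dvd_prod_of_mem _ hp).trans hD) a ?_ Q α h0 h1 h2
  intro j hj
  apply (hS p hp).2
  rw [Finset.mem_biUnion]
  exact ⟨j, Finset.mem_univ _, Nat.mem_primeFactors.mpr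
    ⟨(hS p hp).1, Int.natCast_dvd.mp hj, Int.natAbs_ne_zero.mpr (ha j)⟩⟩

end Pool.Agent.W600.DM
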