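import Mathlib

/-!
# Dynamical Mordell-Lang near a superattracting polyannulus: definitions and statements of the parts
-/

set_option autoImplicit false

open Filter Topology

namespace Pool.Agent.W600.DM

/-- `Phi d f = sum_k shift (coeff k f) X^(d k)`, where `shift g n = g (n + 1)`. -/
noncomputable def Phi {K : Type} [CommRing K] (d : ℕ) (f : PowerSeries (ℕ → K)) :
    PowerSeries (ℕ → K) :=
  PowerSeries.mk fun k => if d ∣ k then (fun n => PowerSeries.coeff (k / d) f (n + 1)) else 0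

/-- value of the series `f` at time `n` and at the small parameter `s`. -/
noncomputable def ev {K : Type} [NormedField K] (s : K) (n : ℕ) (f : PowerSeries (ℕ → K)) : K :=
  ∑' k, PowerSeries.coeff k f n * s ^ k

/-- geometric bound of the coefficients. -/
def Bd {K : Type} [NormedField K] (ρ B : ℝ) (f : PowerSeries (ℕ → K)) : Prop :=
  ∀ k n, ‖PowerSeries.coeff k f n‖ * ρ ^ k ≤ B

/-- the algebra of sequences generated by `n ↦ (u i)^(d^n)` and their inverses. -/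
noncomputable def Alg {K ι : Type} [Field K] (d : ℕ) (u : ι → K) : Subalgebra K (ℕ → K) :=
  Algebra.adjoin K {f : ℕ → K | ∃ i, f = (fun n => u i ^ (d ^ n)) ∨ f = (fun n => (u i)⁻¹ ^ (d ^ n))}

/-- evaluation is a ring homomorphism on geometrically bounded series. -/
def S_Ev : Prop :=
  ∀ (K : Type) [NontriviallyNormedField K] [CompleteSpace K] (s : K) (n : ℕ) (ρ B B' : ℝ)
    (f g : PowerSeries (ℕ → K)), 0 < ρ → ‖s‖ < ρ → Bd ρ B f → Bd ρ B' g →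
    ev s n (f * g) = ev s n f * ev s n g ∧ ev s n (f + g) = ev s n f + ev s n g

/-- evaluation of `Phi`. -/
def S_EvPhi : Prop :=
  ∀ (K : Type) [NontriviallyNormedField K] (s : K) (n d : ℕ) (f : PowerSeries (ℕ → K)), 1 ≤ d →
    ev s n (Phi d f) = ev (s ^ d) (n + 1) f

/-- solution of the functional equation in power series with geometric bounds. -/
def S_Sol : Prop :=
  ∀ (K : Type) [NontriviallyNormedField K] [IsUltrametricDist K] [CharZero K] (ι : Type)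
    [Fintype ι] (d : ℕ), 2 ≤ d → ‖(d : K)‖ < 1 →
    ∀ (A : Subalgebra K (ℕ → K)), (∀ f ∈ A, (fun n => f (n + 1)) ∈ A) →
    ∀ (T : ι → Finset (ι → ℕ)) (c : ι → (ι → ℕ) → K) (e : ι → (ι → ℕ) → ℕ)
      (w : ι → (ι → ℕ) → ℕ → K), (∀ i, ∀ β ∈ T i, 1 ≤ e i β) →
      (∀ i, ∀ β ∈ T i, w i β ∈ A ∧ ∀ n, ‖w i β n‖ ≤ 1) →
    ∃ (ρ : ℝ) (ξ : ι → PowerSeries (ℕ → K)), 0 < ρ ∧ ρ ≤ 1 ∧
      (∀ i, PowerSeries.coeff 0 (ξ i) = 0) ∧ (∀ i k, PowerSeries.coeff k (ξ i) ∈ A) ∧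
      (∀ i, Bd ρ 1 (ξ i)) ∧
      ∀ i, (1 + ξ i) ^ d + ∑ β ∈ T i, PowerSeries.C (c i β • w i β) * PowerSeries.X ^ (e i β) *
        ∏ j, (1 + ξ j) ^ (β j) = 1 + Phi d (ξ i)

/-- Boettcher coordinate of one orbit. -/
def S_Y : Prop :=
  ∀ (K : Type) [NontriviallyNormedField K] [IsUltrametricDist K] [CompleteSpace K] [CharZero K]
    [IsAlgClosed K] (d : ℕ), 2 ≤ d → ‖(d : K)‖ < 1 →
    ∀ (x r : ℕ → K) (κ : ℝ), 0 ≤ κ → κ < 1 → x 0 ≠ 0 →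
      (∀ n, x (n + 1) = x n ^ d * (1 + r n)) → (∀ n, ‖r n‖ ≤ κ ^ (d ^ n)) →
      ∃ (b : K) (C κ' : ℝ), b ≠ 0 ∧ 0 ≤ κ' ∧ κ' < 1 ∧
        ∀ n, ‖x n / b ^ (d ^ n) - 1‖ ≤ C * κ' ^ (d ^ n)

/-- uniqueness of super-exponentially small solutions. -/
def S_Uniq : Prop :=
  ∀ (K : Type) [NontriviallyNormedField K] [IsUltrametricDist K] [CharZero K] (ι : Type)
    [Fintype ι] (d : ℕ), 2 ≤ d → ‖(d : K)‖ < 1 →
    ∀ (T : ι → Finset (ι → ℕ)) (a : ι → (ι → ℕ) → ℕ → K) (η θ : ℕ → ι → K) (C κ : ℝ) (n₀ : ℕ),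
      0 ≤ κ → κ < 1 → (∀ i, ∀ β ∈ T i, Tendsto (a i β) atTop (𝓝 0)) →
      (∀ n ≥ n₀, ∀ i, ‖η n i‖ ≤ C * κ ^ (d ^ n)) → (∀ n ≥ n₀, ∀ i, ‖θ n i‖ ≤ C * κ ^ (d ^ n)) →
      (∀ n ≥ n₀, ∀ i, (1 + η n i) ^ d + ∑ β ∈ T i, a i β n * ∏ j, (1 + η n j) ^ (β j) =
        1 + η (n + 1) i) →
      (∀ n ≥ n₀, ∀ i, (1 + θ n i) ^ d + ∑ β ∈ T i, a i β n * ∏ j, (1 + θ n j) ^ (β j) =
        1 + θ (n + 1) i) →
      ∃ n₁, ∀ n ≥ n₁, η n = θ n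

/-- a finite exponential sum `sum_l C_l lam_l^(D^j)` with one-units `lam_l` whose quotients are not
roots of unity is bounded below by a power of `|D|^j`. -/
def S_Exp : Prop :=
  ∀ (K : Type) [NontriviallyNormedField K] [IsUltrametricDist K] [CompleteSpace K] [CharZero K]
    (p : ℕ), p.Prime → ‖(p : K)‖ < 1 → ∀ (D : ℕ), 2 ≤ D → p ∣ D →
    ∀ (S : Finset K) (Cf : K → K), S.Nonempty → (∀ l ∈ S, ‖l - 1‖ < 1) → (∀ l ∈ S, Cf l ≠ 0) →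
      (∀ l ∈ S, ∀ l' ∈ S, ∀ m : ℕ, 1 ≤ m → l ^ m = l' ^ m → l = l') →
      ∃ (c : ℝ) (k j₁ : ℕ), 0 < c ∧
        ∀ j ≥ j₁, c * ‖(D : K)‖ ^ (k * j) ≤ ‖∑ l ∈ S, Cf l * l ^ (D ^ j)‖

/-- zero or lower bound along residue classes for the algebra of exponential sums. -/
def S_Low : Prop :=
  ∀ (K : Type) [NontriviallyNormedField K] [IsUltrametricDist K] [CompleteSpace K] [CharZero K]
    (p : ℕ), p.Prime → ‖(p : K)‖ < 1 → ∀ (ι : Type) [Fintype ι] (d : ℕ), 2 ≤ d → p ∣ d →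
    ∀ u : ι → K, (∀ i, ‖u i‖ = 1) → (∀ i, ∃ M : ℕ, 1 ≤ M ∧ ‖u i ^ M - 1‖ < 1) →
    ∃ n₀ M : ℕ, 1 ≤ M ∧ ∀ h ∈ Alg d u, ∀ r ≥ n₀,
      (∀ j : ℕ, h (r + M * j) = 0) ∨
      ∃ (c : ℝ) (k j₁ : ℕ), 0 < c ∧ ∀ j ≥ j₁, c * ‖(d : K)‖ ^ (k * j) ≤ ‖h (r + M * j)‖

/-- in `ℂ_p` every nonzero element has a power equal to a power of `p` times a one-unit. -/
def S_Cp : Prop :=
  ∀ (p : ℕ) [Fact p.Prime] (x : ℂ_[p]), x ≠ 0 →
    ∃ (k : ℕ) (m : ℤ), 1 ≤ k ∧ ‖x ^ k * (p : ℂ_[p]) ^ m - 1‖ < 1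

/-- a set of natural numbers that is eventually periodic. -/
def EvPer (M : ℕ) (A : Set ℕ) : Prop := ∃ n₁, ∀ n ≥ n₁, n ∈ A ↔ n + M ∈ A

/-- the core theorem: for an orbit `x` of a system `x_i^d + P_i(x)` whose lower terms are dominated
the zero set of every polynomial along the orbit is eventually periodic, with a common period. -/
def S_Core : Prop :=
  ∀ (K : Type) [NontriviallyNormedField K] [IsUltrametricDist K] [CompleteSpace K] [CharZero K]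
    [IsAlgClosed K] (p : ℕ), p.Prime → ‖(p : K)‖ < 1 →
    (∀ x : K, x ≠ 0 → ∃ (k : ℕ) (m : ℤ), 1 ≤ k ∧ ‖x ^ k * (p : K) ^ m - 1‖ < 1) →
    ∀ (ι : Type) [Fintype ι] (d : ℕ), 2 ≤ d → p ∣ d →
    ∀ (T : ι → Finset (ι → ℕ)) (c : ι → (ι → ℕ) → K) (x : ℕ → ι → K),
      (∀ n i, x (n + 1) i = x n i ^ d + ∑ β ∈ T i, c i β * ∏ j, x n j ^ (β j)) →
      (∀ i, x 0 i ≠ 0) →
      (∀ i, ∀ β ∈ T i, ‖c i β‖ * ∏ j, ‖x 0 j‖ ^ (β j) < ‖x 0 i‖ ^ d ∧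
        ∏ j, ‖x 0 j‖ ^ (β j) < ‖x 0 i‖ ^ d) →
      ∃ M : ℕ, 1 ≤ M ∧ ∀ P : MvPolynomial ι K, EvPer M {n | MvPolynomial.eval (x n) P = 0}

end Pool.Agent.W600.DM
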