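import Pool.Agent.W600.DM.Alg

set_option autoImplicit false
set_option linter.unusedSectionVars false

open Filter Topology PowerSeries

namespace Pool.Agent.W600.DM

variable {K : Type} [NontriviallyNormedField K] [IsUltrametricDist K] [CompleteSpace K]
variable {ι : Type} [Fintype ι] {d : ℕ} {T : ι → Finset (ι → ℕ)} {c : ι → (ι → ℕ) → K}
  {x : ℕ → ι → K}

lemma theta_bound {ρ : ℝ} (hρ : 0 < ρ) {f : PowerSeries (ℕ → K)} (hB : Bd ρ 1 f)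
    (h0 : coeff 0 f = 0) {s : K} {n : ℕ} (hs : ‖s‖ < ρ) : ‖ev s n f‖ ≤ ‖s‖ / ρ := by
  have h := ev_tail hρ hB (n := n) hs (k₀ := 0) (fun k hk => absurd hk (Nat.not_lt_zero k))
  rw [h0] at h
  simpa using h

lemma theta_eq (hEv : S_Ev) (hPhi : S_EvPhi) {A : Subalgebra K (ℕ → K)}
    (hA : ∀ f ∈ A, (fun n => f (n + 1)) ∈ A) {ρ : ℝ} (hρ : 0 < ρ) (hρ1 : ρ ≤ 1) (hd : 1 ≤ d)
    {e : ι → (ι → ℕ) → ℕ} {w : ι → (ι → ℕ) → ℕ → K} (hwA : ∀ i β, w i β ∈ A)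
    (hw1 : ∀ i β n, ‖w i β n‖ ≤ 1) {ξ : ι → PowerSeries (ℕ → K)}
    (hξA : ∀ i k, coeff k (ξ i) ∈ A) (hξB : ∀ i, Bd ρ 1 (ξ i))
    (hξ : ∀ i, (1 + ξ i) ^ d + ∑ β ∈ T i, PowerSeries.C (c i β • w i β) * PowerSeries.X ^ (e i β) *
        ∏ j, (1 + ξ j) ^ (β j) = 1 + Phi d (ξ i)) {s : K} {n : ℕ} (hs : ‖s‖ < ρ) (i : ι) :
    (1 + ev s n (ξ i)) ^ d + ∑ β ∈ T i, c i β * (w i β n * s ^ (e i β)) *
        ∏ j, (1 + ev s n (ξ j)) ^ (β j) = 1 + ev (s ^ d) (n + 1) (ξ i) := by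
  let g : ι → Good A ρ hρ := fun i => ⟨ξ i, hξA i, 1, hξB i⟩
  let W : ι → (ι → ℕ) → Good A ρ hρ := fun i β => ⟨PowerSeries.C (c i β • w i β),
    C_mem_Good (A.smul_mem (hwA i β) _) (B := ‖c i β‖) (fun n => by
      rw [Pi.smul_apply, smul_eq_mul, norm_mul]
      exact mul_le_of_le_one_right (norm_nonneg _) (hw1 i β n))⟩
  let X' : Good A ρ hρ := ⟨PowerSeries.X, X_mem_Good⟩
  let F : Good A ρ hρ := ⟨Phi d (ξ i), Phi_mem_Good hA hρ1 hd ⟨hξA i, 1, hξB i⟩⟩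
  have key : (1 + g i) ^ d + ∑ β ∈ T i, W i β * X' ^ (e i β) * ∏ j, (1 + g j) ^ (β j) = 1 + F := by
    apply Subtype.ext
    push_cast
    exact hξ i
  have h2 := congrArg (evHom hEv A ρ hρ s n hs) key
  simp only [map_add, map_pow, map_sum, map_mul, map_prod, map_one, evHom_apply] at h2
  simp only [g, W, X', F, ev_C, ev_X, hPhi K s n d _ hd, Pi.smul_apply, smul_eq_mul] at h2
  rw [← h2]
  congr 1
  refine Finset.sum_congr rfl fun β _ => ?_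
  ring

lemma prod_zpow_aux {F : Type} [Field F] {π : F} (hπ : π ≠ 0) (μ : ι → ℤ) (δ : ι → ℕ) :
    ∏ j, (π ^ (μ j)) ^ (δ j) = π ^ (∑ j, μ j * (δ j : ℤ)) := by
  classical
  have h : ∀ S : Finset ι, ∏ j ∈ S, (π ^ (μ j)) ^ (δ j) = π ^ (∑ j ∈ S, μ j * (δ j : ℤ)) := by
    intro S
    induction S using Finset.induction_on with
    | empty => simp
    | insert a S ha ih =>
      rw [Finset.prod_insert ha, Finset.sum_insert ha, zpow_add₀ hπ, ih, zpow_mul, zpow_natCast]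
  exact h Finset.univ

/-- the series attached to a polynomial. -/
lemma poly_series (hEv : S_Ev) {u : ι → K} (hu : ∀ i, ‖u i‖ = 1) {ρ : ℝ} (hρ : 0 < ρ)
    {ξ : ι → PowerSeries (ℕ → K)}
    (hξA : ∀ i k, coeff k (ξ i) ∈ Alg d u) (hξB : ∀ i, Bd ρ 1 (ξ i)) (P : MvPolynomial ι K)
    {π : K} {μ : ι → ℤ} (hπ : π ≠ 0) :
    ∃ (κ₀ : ℕ) (H : PowerSeries (ℕ → K)) (B : ℝ), (∀ k, coeff k H ∈ Alg d u) ∧ Bd ρ B H ∧
      ∀ n, ‖π ^ (d ^ n)‖ < ρ → ev (π ^ (d ^ n)) n H = (π ^ (d ^ n)) ^ κ₀ *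
        MvPolynomial.eval (fun j => (u j * π ^ (μ j)) ^ (d ^ n) * (1 + ev (π ^ (d ^ n)) n (ξ j))) P := by
  classical
  set κ₀ : ℕ := ∑ δ ∈ P.support, (∑ j, μ j * δ j).natAbs with hκ₀
  set E : (ι →₀ ℕ) → ℕ := fun δ => ((κ₀ : ℤ) + ∑ j, μ j * δ j).toNat with hE
  have hEδ : ∀ δ ∈ P.support, (E δ : ℤ) = κ₀ + ∑ j, μ j * δ j := by
    intro δ hδ
    rw [hE]
    simp only
    rw [Int.toNat_of_nonneg]
    have h1 : (∑ j, μ j * δ j).natAbs ≤ κ₀ := by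
      rw [hκ₀]
      exact Finset.single_le_sum (f := fun δ : ι →₀ ℕ => (∑ j, μ j * (δ j : ℤ)).natAbs)
        (fun _ _ => Nat.zero_le _) hδ
    have h2 : -(((∑ j, μ j * (δ j : ℤ)).natAbs : ℤ)) ≤ ∑ j, μ j * (δ j : ℤ) := by
      rw [Int.natCast_natAbs]; exact neg_abs_le _
    have h3 : (((∑ j, μ j * (δ j : ℤ)).natAbs : ℤ)) ≤ (κ₀ : ℤ) := by exact_mod_cast h1
    linarith
  let g : ι → Good (Alg d u) ρ hρ := fun i => ⟨ξ i, hξA i, 1, hξB i⟩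
  let W : (ι →₀ ℕ) → Good (Alg d u) ρ hρ := fun δ =>
    ⟨PowerSeries.C (P.coeff δ • fun n => (∏ j, u j ^ δ j) ^ (d ^ n)),
    C_mem_Good ((Alg d u).smul_mem (prod_mem_Alg d u δ) _) (B := ‖P.coeff δ‖) (fun n => by
      rw [Pi.smul_apply, smul_eq_mul, norm_mul, norm_pow, norm_prod]
      have : ∏ j, ‖u j ^ δ j‖ = 1 := Finset.prod_eq_one fun j _ => by rw [norm_pow, hu, one_pow]
      rw [this, one_pow, mul_one])⟩
  let X' : Good (Alg d u) ρ hρ := ⟨PowerSeries.X, X_mem_Good⟩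
  let HH : Good (Alg d u) ρ hρ := ∑ δ ∈ P.support, W δ * X' ^ (E δ) * ∏ j, (1 + g j) ^ (δ j)
  obtain ⟨hA, B, hB⟩ := HH.2
  refine ⟨κ₀, HH.1, B, hA, hB, fun n hs => ?_⟩
  have h2 : evHom hEv (Alg d u) ρ hρ (π ^ (d ^ n)) n hs HH = ∑ δ ∈ P.support,
      P.coeff δ * (∏ j, u j ^ δ j) ^ (d ^ n) * (π ^ (d ^ n)) ^ (E δ) *
        ∏ j, (1 + ev (π ^ (d ^ n)) n (ξ j)) ^ (δ j) := by
    simp only [HH, map_sum, map_mul, map_pow, map_prod, map_add, map_one, evHom_apply]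
    simp only [g, W, X', ev_C, ev_X, Pi.smul_apply, smul_eq_mul]
  rw [evHom_apply] at h2
  rw [h2, MvPolynomial.eval_eq', Finset.mul_sum]
  refine Finset.sum_congr rfl fun δ hδ => ?_
  have h3 : (π ^ (d ^ n)) ^ (E δ) = (π ^ (d ^ n)) ^ κ₀ * (∏ j, (π ^ (μ j)) ^ (δ j)) ^ (d ^ n) := by
    have h4 : (π ^ (d ^ n)) ^ (E δ) = (π ^ ((E δ : ℕ) : ℤ)) ^ (d ^ n) := by
      rw [zpow_natCast, ← pow_mul, ← pow_mul, mul_comm]
    have h5 : ∏ j, (π ^ (μ j)) ^ (δ j) = π ^ (∑ j, μ j * (δ j : ℤ)) := prod_zpow_aux hπ μ δ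
    rw [h4, hEδ δ hδ, zpow_add₀ hπ, mul_pow, zpow_natCast, ← pow_mul, ← pow_mul, mul_comm κ₀, h5]
  rw [h3]
  have h6 : ∏ j, ((u j * π ^ (μ j)) ^ (d ^ n) * (1 + ev (π ^ (d ^ n)) n (ξ j))) ^ (δ j) =
      (∏ j, u j ^ δ j) ^ (d ^ n) * (∏ j, (π ^ (μ j)) ^ (δ j)) ^ (d ^ n) *
        ∏ j, (1 + ev (π ^ (d ^ n)) n (ξ j)) ^ (δ j) := by
    rw [← Finset.prod_pow, ← Finset.prod_pow, ← Finset.prod_mul_distrib, ← Finset.prod_mul_distrib]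
    refine Finset.prod_congr rfl fun j _ => ?_
    rw [mul_pow, mul_pow, mul_pow, ← pow_mul, ← pow_mul, ← pow_mul, ← pow_mul, mul_comm (δ j)]
  rw [h6]
  ring

end Pool.Agent.W600.DM
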