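import Pool.Agent.W600.DM.Bott

set_option autoImplicit false
set_option linter.unusedSectionVars false

open Filter Topology

namespace Pool.Agent.W600.DM

variable {K : Type} [NontriviallyNormedField K] [IsUltrametricDist K] [CharZero K]
variable {ι : Type} [Fintype ι]

lemma norm_eq_one_of_sub {a : K} (h : ‖a - 1‖ < 1) : ‖a‖ = 1 := by
  have h4 : a = 1 + (a - 1) := by ring
  rw [h4, norm_add_eq_left (by rwa [norm_one]), norm_one]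

lemma exists_pi [IsAlgClosed K] {p : ℕ} (hp : p.Prime) (hpn : ‖(p : K)‖ < 1)
    (hL : ∀ x : K, x ≠ 0 → ∃ (k : ℕ) (m : ℤ), 1 ≤ k ∧ ‖x ^ k * (p : K) ^ m - 1‖ < 1)
    (b : ι → K) (hb : ∀ i, b i ≠ 0) :
    ∃ (π : K) (μ : ι → ℤ), π ≠ 0 ∧ ‖π‖ < 1 ∧ ∀ i, ‖b i‖ = ‖π‖ ^ (μ i) := by
  classical
  choose k m hk hkm using fun i => hL (b i) (hb i)
  have hp0 : (p : K) ≠ 0 := Nat.cast_ne_zero.mpr hp.ne_zero
  set k0 : ℕ := ∏ i, k i with hk0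
  have hk0pos : 0 < k0 := Finset.prod_pos fun i _ => hk i
  obtain ⟨π, hπ⟩ := IsAlgClosed.exists_pow_nat_eq (p : K) hk0pos
  have hπ0 : π ≠ 0 := by
    rintro rfl
    rw [zero_pow hk0pos.ne'] at hπ
    exact hp0 hπ.symm
  have hπn : ‖π‖ ^ k0 = ‖(p : K)‖ := by rw [← norm_pow, hπ]
  have hπpos : 0 < ‖π‖ := norm_pos_iff.mpr hπ0
  refine ⟨π, fun i => -(((k0 / k i : ℕ) : ℤ) * m i), hπ0, ?_, ?_⟩
  · by_contra hcon
    rw [not_lt] at hcon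
    have := one_le_pow₀ hcon (n := k0)
    rw [hπn] at this
    linarith
  · intro i
    have hdvd : k i ∣ k0 := Finset.dvd_prod_of_mem _ (Finset.mem_univ i)
    have h1 : ‖b i ^ k i * (p : K) ^ m i‖ = 1 := norm_eq_one_of_sub (hkm i)
    rw [norm_mul, norm_pow, norm_zpow, ← hπn] at h1
    have hne : (‖π‖ ^ k0) ^ m i ≠ 0 := zpow_ne_zero _ (pow_ne_zero _ hπpos.ne')
    have h2 : ‖b i‖ ^ k i = (‖π‖ ^ (-(((k0 / k i : ℕ) : ℤ) * m i))) ^ k i := by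
      have h3 : ‖b i‖ ^ k i = ((‖π‖ ^ k0) ^ m i)⁻¹ := eq_inv_of_mul_eq_one_left h1
      rw [h3, ← zpow_natCast (‖π‖ ^ _) (k i), ← zpow_mul, ← zpow_natCast ‖π‖ k0, ← zpow_mul,
        ← zpow_neg]
      congr 1
      have h4 : ((k0 / k i : ℕ) : ℤ) * (k i : ℤ) = (k0 : ℤ) := by
        exact_mod_cast Nat.div_mul_cancel hdvd
      rw [← h4]; ring
    have hki : k i ≠ 0 := by have := hk i; omega
    exact (pow_left_inj₀ (norm_nonneg _) (zpow_nonneg hπpos.le _) hki).mp h2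

lemma unit_pow {p : ℕ} (hp : p.Prime) (hpn : ‖(p : K)‖ < 1)
    (hL : ∀ x : K, x ≠ 0 → ∃ (k : ℕ) (m : ℤ), 1 ≤ k ∧ ‖x ^ k * (p : K) ^ m - 1‖ < 1)
    {u : K} (hu : ‖u‖ = 1) : ∃ M : ℕ, 1 ≤ M ∧ ‖u ^ M - 1‖ < 1 := by
  have hu0 : u ≠ 0 := by rintro rfl; simp at hu
  obtain ⟨k, m, hk, hkm⟩ := hL u hu0
  have hp0 : (p : K) ≠ 0 := Nat.cast_ne_zero.mpr hp.ne_zero
  have hpp : 0 < ‖(p : K)‖ := norm_pos_iff.mpr hp0
  have h1 : ‖u ^ k * (p : K) ^ m‖ = 1 := norm_eq_one_of_sub hkm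
  rw [norm_mul, norm_pow, norm_zpow, hu, one_pow, one_mul] at h1
  have hm : m = 0 := by
    by_contra hm
    rcases lt_or_gt_of_ne hm with h | h
    · exact (one_lt_zpow_of_neg₀ hpp hpn h).ne' h1
    · exact (zpow_lt_one₀ hpp hpn h).ne h1
  subst hm
  exact ⟨k, hk, by simpa using hkm⟩

end Pool.Agent.W600.DM
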